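import Pool.Agent.TH457.EntD.Pair

/-!
# The corruption bound on a part of the universe (helper631)
-/

set_option autoImplicit false

namespace Pool.Agent.N631.LX

open Pool.Agent.W959 Pool.Agent.W959.Ent Pool.Agent.TH457.EntD

/-- the tensorised inequality for a part of the coordinates -/
theorem tensorV {m : ℕ} (hm : 10 ≤ m) (n : ℕ) {f g : (Fin n → Bool) → ℝ} (hf : ∀ x, 0 ≤ f x)
    (hg : ∀ x, 0 ≤ g x) (V : Fin n → Bool) :
    ex2 (1 / (m : ℝ)) n (fun x y => f x * g y *
      ind (∀ i, V i = true → (x i && y i) = false)) ≤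
      (1 - 1 / (22 * (m : ℝ) ^ 2)) ^ (Finset.univ.filter fun i => V i = true).card *
        (nrm m n f * nrm m n g) := by
  have hm' : (10 : ℝ) ≤ m := by exact_mod_cast hm
  have hm0 : (0 : ℝ) < m := by linarith
  have hinv : 1 / (m : ℝ) ≤ 1 / 10 := by
    apply one_div_le_one_div_of_le <;> linarith
  have hinv0 : 0 < 1 / (m : ℝ) := by positivity
  have hr1 : 0 ≤ 1 - 1 / (m : ℝ) := by linarith
  have hp0 : 0 < 1 + 1 / (m : ℝ) := by linarith
  have hg0 : 0 ≤ 1 - 1 / (22 * (m : ℝ) ^ 2) := by
    have : 1 / (22 * (m : ℝ) ^ 2) ≤ 1 := by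
      rw [div_le_one (by positivity)]
      nlinarith
    linarith
  -- power of the norm
  have hnp : ∀ (k : ℕ) (u : (Fin k → Bool) → ℝ), (∀ x, 0 ≤ u x) →
      nrm m k u ^ (1 + 1 / (m : ℝ)) = ex (1 / (m : ℝ)) k fun x => u x ^ (1 + 1 / (m : ℝ)) := by
    intro k u hu
    unfold nrm
    rw [← Real.rpow_mul (ex_nonneg hinv0.le hr1 k fun x => Real.rpow_nonneg (hu x) _),
      one_div_mul_cancel hp0.ne', Real.rpow_one]
  have hnn : ∀ (k : ℕ) (u : (Fin k → Bool) → ℝ), (∀ x, 0 ≤ u x) → 0 ≤ nrm m k u := by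
    intro k u hu
    exact Real.rpow_nonneg (ex_nonneg hinv0.le hr1 k fun x => Real.rpow_nonneg (hu x) _) _
  induction n with
  | zero =>
    have h1 : ex2 (1 / (m : ℝ)) 0 (fun x y => f x * g y *
        ind (∀ i, V i = true → (x i && y i) = false)) ≤ f Fin.elim0 * g Fin.elim0 := by
      simp only [ex2, ex]
      have h0 := mul_nonneg (hf Fin.elim0) (hg Fin.elim0)
      exact mul_le_of_le_one_right h0 (ind_le_one _)
    have h2 : (Finset.univ.filter fun i : Fin 0 => V i = true).card = 0 := by simp
    have h3 : ∀ u : (Fin 0 → Bool) → ℝ, (∀ x, 0 ≤ u x) → nrm m 0 u = u Fin.elim0 := by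
      intro u hu
      simp only [nrm, ex]
      rw [← Real.rpow_mul (hu _), mul_one_div_cancel hp0.ne', Real.rpow_one]
    rw [h2, pow_zero, one_mul, h3 f hf, h3 g hg]
    exact h1
  | succ n ih =>
    rw [ex2_succ]
    have hcard : (Finset.univ.filter fun i : Fin (n + 1) => V i = true).card =
        (if V 0 = true then 1 else 0) +
          (Finset.univ.filter fun i : Fin n => V i.succ = true).card := by
      rw [Fin.card_filter_univ_succ']
    rw [hcard]
    have hpart : ∀ b c : Bool, ex2 (1 / (m : ℝ)) n (fun x y =>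
        f (Fin.cons b x) * g (Fin.cons c y) *
          ind (∀ i : Fin (n + 1), V i = true →
            ((Fin.cons b x : Fin (n + 1) → Bool) i && (Fin.cons c y : Fin (n + 1) → Bool) i) =
              false)) ≤
        (if V 0 = true ∧ (b && c) = true then 0 else 1) * ((1 - 1 / (22 * (m : ℝ) ^ 2)) ^
          (Finset.univ.filter fun i : Fin n => V i.succ = true).card *
          (nrm m n (fun x => f (Fin.cons b x)) * nrm m n (fun x => g (Fin.cons c x)))) := by
      intro b c
      by_cases hbc : V 0 = true ∧ (b && c) = true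
      · rw [if_pos hbc, zero_mul]
        have h4 : ∀ x y : Fin n → Bool, ind (∀ i : Fin (n + 1), V i = true →
            ((Fin.cons b x : Fin (n + 1) → Bool) i && (Fin.cons c y : Fin (n + 1) → Bool) i) =
              false) = 0 := by
          intro x y
          apply ind_false
          intro h
          have := h 0 hbc.1
          simp only [Fin.cons_zero] at this
          rw [hbc.2] at this
          exact absurd this (by simp)
        simp only [h4, mul_zero, ex2_const]
        exact le_rfl
      · rw [if_neg hbc, one_mul]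
        have := ih (f := fun x => f (Fin.cons b x)) (g := fun x => g (Fin.cons c x))
          (fun x => hf _) (fun x => hg _) (fun i => V i.succ)
        refine le_trans (ex2_mono hinv0.le hr1 n fun x y => ?_) this
        apply mul_le_mul_of_nonneg_left _ (mul_nonneg (hf _) (hg _))
        apply ind_mono
        intro h i hi
        have := h i.succ hi
        simpa using this
    have p00 := hpart false false
    have p01 := hpart false true
    have p10 := hpart true false
    have p11 := hpart true true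
    have hF0 := hnn n (fun x => f (Fin.cons false x)) fun x => hf _
    have hF1 := hnn n (fun x => f (Fin.cons true x)) fun x => hf _
    have hG0 := hnn n (fun x => g (Fin.cons false x)) fun x => hg _
    have hG1 := hnn n (fun x => g (Fin.cons true x)) fun x => hg _
    have hfn : nrm m (n + 1) f = ((1 - 1 / (m : ℝ)) * nrm m n (fun x => f (Fin.cons false x)) ^
        (1 + 1 / (m : ℝ)) + 1 / (m : ℝ) * nrm m n (fun x => f (Fin.cons true x)) ^
        (1 + 1 / (m : ℝ))) ^ (1 / (1 + 1 / (m : ℝ))) := by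
      rw [hnp n _ fun x => hf _, hnp n _ fun x => hf _]
      simp only [nrm, ex]
    have hgn : nrm m (n + 1) g = ((1 - 1 / (m : ℝ)) * nrm m n (fun x => g (Fin.cons false x)) ^
        (1 + 1 / (m : ℝ)) + 1 / (m : ℝ) * nrm m n (fun x => g (Fin.cons true x)) ^
        (1 + 1 / (m : ℝ))) ^ (1 / (1 + 1 / (m : ℝ))) := by
      rw [hnp n _ fun x => hg _, hnp n _ fun x => hg _]
      simp only [nrm, ex]
    have tp := two_point hm hF0 hF1 hG0 hG1
    rw [← hfn, ← hgn] at tp
    have pm : ∀ {A B : ℝ}, 0 ≤ A → 0 ≤ B → (1 - 1 / (m : ℝ)) * A + 1 / (m : ℝ) * B ≤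
        ((1 - 1 / (m : ℝ)) * A ^ (1 + 1 / (m : ℝ)) +
          1 / (m : ℝ) * B ^ (1 + 1 / (m : ℝ))) ^ (1 / (1 + 1 / (m : ℝ))) := by
      intro A B hA hB
      have hp1 : 1 ≤ 1 + 1 / (m : ℝ) := by linarith
      have h := Real.arith_mean_le_rpow_mean (Finset.univ : Finset Bool)
        (fun t => if t = true then 1 / (m : ℝ) else 1 - 1 / (m : ℝ))
        (fun t => if t = true then B else A)
        (by intro t _; cases t
            · simpa using hr1
            · simpa using hinv0.le)
        (by simp)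
        (by intro t _; cases t
            · simpa using hA
            · simpa using hB) hp1
      simp only [Fintype.sum_bool, if_true, Bool.false_eq_true, if_false] at h
      rw [add_comm (1 / (m : ℝ) * B), add_comm (1 / (m : ℝ) * B ^ _)] at h
      exact h
    have q1 := pm hF0 hF1
    have q2 := pm hG0 hG1
    rw [← hfn] at q1
    rw [← hgn] at q2
    have hN := hnn (n + 1) f hf
    have hM := hnn (n + 1) g hg
    generalize (1 - 1 / (22 * (m : ℝ) ^ 2)) = γ at *
    have hγn : 0 ≤ γ ^ (Finset.univ.filter fun i : Fin n => V i.succ = true).card := by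
      positivity
    generalize (Finset.univ.filter fun i : Fin n => V i.succ = true).card = κ at *
    by_cases hV : V 0 = true
    · simp only [hV, Bool.and_self, Bool.and_true, Bool.and_false, Bool.false_eq_true, and_false,
        and_true, if_true, if_false, one_mul, zero_mul, true_and] at p00 p01 p10 p11
      rw [if_pos hV, pow_add, pow_one]
      generalize ex2 (1 / (m : ℝ)) n _ = E00 at *
      generalize ex2 (1 / (m : ℝ)) n _ = E01 at *
      generalize ex2 (1 / (m : ℝ)) n _ = E10 at *
      generalize ex2 (1 / (m : ℝ)) n _ = E11 at *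
      generalize nrm m n (fun x => f (Fin.cons false x)) = F0 at *
      generalize nrm m n (fun x => f (Fin.cons true x)) = F1 at *
      generalize nrm m n (fun x => g (Fin.cons false x)) = G0 at *
      generalize nrm m n (fun x => g (Fin.cons true x)) = G1 at *
      generalize 1 / (m : ℝ) = r at *
      calc (1 - r) * ((1 - r) * E00 + r * E01) + r * ((1 - r) * E10 + r * E11)
          ≤ (1 - r) * ((1 - r) * (γ ^ κ * (F0 * G0)) + r * (γ ^ κ * (F0 * G1))) +
            r * ((1 - r) * (γ ^ κ * (F1 * G0)) + r * 0) := by gcongr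
        _ = γ ^ κ * ((1 - r) * ((1 - r) * (F0 * G0) + r * (F0 * G1)) +
            r * ((1 - r) * (F1 * G0))) := by ring
        _ ≤ γ ^ κ * (γ * (nrm m (n + 1) f * nrm m (n + 1) g)) := by gcongr
        _ = _ := by ring
    · simp only [hV, Bool.false_eq_true, false_and, if_false, one_mul] at p00 p01 p10 p11
      rw [if_neg hV, zero_add]
      generalize ex2 (1 / (m : ℝ)) n _ = E00 at *
      generalize ex2 (1 / (m : ℝ)) n _ = E01 at *
      generalize ex2 (1 / (m : ℝ)) n _ = E10 at *
      generalize ex2 (1 / (m : ℝ)) n _ = E11 at *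
      generalize nrm m n (fun x => f (Fin.cons false x)) = F0 at *
      generalize nrm m n (fun x => f (Fin.cons true x)) = F1 at *
      generalize nrm m n (fun x => g (Fin.cons false x)) = G0 at *
      generalize nrm m n (fun x => g (Fin.cons true x)) = G1 at *
      generalize 1 / (m : ℝ) = r at *
      calc (1 - r) * ((1 - r) * E00 + r * E01) + r * ((1 - r) * E10 + r * E11)
          ≤ (1 - r) * ((1 - r) * (γ ^ κ * (F0 * G0)) + r * (γ ^ κ * (F0 * G1))) +
            r * ((1 - r) * (γ ^ κ * (F1 * G0)) + r * (γ ^ κ * (F1 * G1))) := by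
              gcongr
        _ = γ ^ κ * (((1 - r) * F0 + r * F1) * ((1 - r) * G0 + r * G1)) := by ring
        _ ≤ _ := by
          apply mul_le_mul_of_nonneg_left _ hγn
          exact mul_le_mul q1 q2 (by positivity) hN

theorem z2a (p q r : ZMod 2) (h : p + (q + r) = 0) : p = q + r := by
  revert p q r
  decide

theorem z2b (q r : ZMod 2) : q + r + (q + r) = 0 := by
  revert q r
  decide

/-- the vector which is `x0` on `M` and `x` elsewhere -/
def mrg {n : ℕ} (M : Fin n → Bool) (x0 x : Fin n → Bool) : Fin n → Bool :=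
  fun i => if M i = true then x0 i else x i

theorem mrg_cons {n : ℕ} (M : Fin (n + 1) → Bool) (a b : Bool) (x0 x : Fin n → Bool) :
    mrg M (Fin.cons a x0) (Fin.cons b x) =
      Fin.cons (if M 0 = true then a else b) (mrg (fun i => M i.succ) x0 x) := by
  funext i
  refine Fin.cases ?_ (fun j => ?_) i
  · simp [mrg]
  · simp [mrg]

theorem ex_mrg (r : ℝ) (n : ℕ) (M : Fin n → Bool) (h : (Fin n → Bool) → ℝ) :
    ex r n (fun x0 => ex r n fun x => h (mrg M x0 x)) = ex r n h := by
  induction n with
  | zero =>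
    simp only [ex]
    congr 1
    exact Subsingleton.elim _ _
  | succ n ih =>
    simp only [ex, mrg_cons]
    simp only [ex_add, ex_mul]
    by_cases hM : M 0 = true
    · simp only [hM, if_true]
      rw [ih (fun i => M i.succ) fun x => h (Fin.cons false x),
        ih (fun i => M i.succ) fun x => h (Fin.cons true x)]
      ring
    · simp only [hM, if_false]
      simp only [Bool.false_eq_true, if_false]
      rw [ih (fun i => M i.succ) fun x => h (Fin.cons false x),
        ih (fun i => M i.succ) fun x => h (Fin.cons true x)]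
      ring

theorem ex_comm (r : ℝ) (n : ℕ) (h : (Fin n → Bool) → (Fin n → Bool) → ℝ) :
    ex r n (fun x => ex r n fun y => h x y) = ex r n (fun y => ex r n fun x => h x y) := by
  simp only [ex_eq_sum, Finset.mul_sum]
  rw [Finset.sum_comm]
  refine Finset.sum_congr rfl fun y _ => Finset.sum_congr rfl fun x _ => ?_
  ring

theorem ex2_mrg (r : ℝ) (n : ℕ) (M : Fin n → Bool) (h : (Fin n → Bool) → (Fin n → Bool) → ℝ) :
    ex2 r n h = ex r n (fun x0 => ex r n fun y0 =>
      ex2 r n fun x y => h (mrg M x0 x) (mrg M y0 y)) := by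
  unfold ex2
  rw [← ex_mrg r n M fun x => ex r n fun y => h x y]
  congr 1
  funext x0
  rw [ex_comm r n fun y0 x => ex r n fun y => h (mrg M x0 x) (mrg M y0 y)]
  congr 1
  funext x
  rw [← ex_mrg r n M fun y => h (mrg M x0 x) y]

/-- **Corruption.** The values of `a`, restricted to fixed values of the coordinates in `M`, are sums
of functions of `x` and of `y`. -/
theorem corrupt {m : ℕ} (hm : 10 ≤ m) {n d v : ℕ} (a : (Fin n → Bool) → (Fin n → Bool) →
    Fin d → ZMod 2) (M : Fin n → Bool)
    (ha : ∀ x x0 y y0, (∀ i, M i = true → x i = x0 i) → (∀ i, M i = true → y i = y0 i) →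
      a x y = a x y0 + a x0 y + a x0 y0)
    (hv : v ≤ (Finset.univ.filter fun i => M i ≠ true).card)
    {α β : ℝ} (hβ : 0 ≤ β) (hα : 0 ≤ α)
    (hP : ∀ P : ℝ, 0 ≤ P → P ^ (1 / (1 + 1 / (m : ℝ))) ≤ α * P + β) :
    ex2 (1 / (m : ℝ)) n (fun x y => ind (a x y = 0 ∧ conj x y = zero n)) ≤
      (1 - 1 / (22 * (m : ℝ) ^ 2)) ^ v *
        (α * ex2 (1 / (m : ℝ)) n (fun x y => ind (a x y = 0)) + β * 2 ^ d) := by
  have hm' : (10 : ℝ) ≤ m := by exact_mod_cast hm
  have hm0 : (0 : ℝ) < m := by linarith
  have hinv : 1 / (m : ℝ) ≤ 1 / 10 := by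
    apply one_div_le_one_div_of_le <;> linarith
  have hinv0 : 0 < 1 / (m : ℝ) := by positivity
  have hr1 : 0 ≤ 1 - 1 / (m : ℝ) := by linarith
  have hp0 : 0 < 1 + 1 / (m : ℝ) := by linarith
  have hg0 : 0 ≤ 1 - 1 / (22 * (m : ℝ) ^ 2) := by
    have : 1 / (22 * (m : ℝ) ^ 2) ≤ 1 := by
      rw [div_le_one (by positivity)]
      nlinarith
    linarith
  have hg1 : 1 - 1 / (22 * (m : ℝ) ^ 2) ≤ 1 := by
    have : 0 ≤ 1 / (22 * (m : ℝ) ^ 2) := by positivity
    linarith
  have hnrm : ∀ Z : (Fin n → Bool) → Prop, nrm m n (fun x => ind (Z x)) =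
      (ex (1 / (m : ℝ)) n fun x => ind (Z x)) ^ (1 / (1 + 1 / (m : ℝ))) := by
    intro Z
    unfold nrm
    congr 2
    funext x
    simp only
    by_cases h : Z x
    · rw [ind_true h, Real.one_rpow]
    · rw [ind_false h, Real.zero_rpow hp0.ne']
  have key : ∀ x0 y0 : Fin n → Bool, ex2 (1 / (m : ℝ)) n (fun x y =>
      ind (a (mrg M x0 x) (mrg M y0 y) = 0 ∧ conj (mrg M x0 x) (mrg M y0 y) = zero n)) ≤
      (1 - 1 / (22 * (m : ℝ) ^ 2)) ^ v * (α * ex2 (1 / (m : ℝ)) n (fun x y =>
        ind (a (mrg M x0 x) (mrg M y0 y) = 0)) + β * 2 ^ d) := by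
    intro x0 y0
    let f : (Fin d → ZMod 2) → (Fin n → Bool) → Prop := fun τ x => a (mrg M x0 x) y0 = τ
    let g : (Fin d → ZMod 2) → (Fin n → Bool) → Prop := fun τ y =>
      a x0 (mrg M y0 y) + a x0 y0 = τ
    have hM : ∀ x y i, M i = true → mrg M x y i = x i := by
      intro x y i hi
      simp [mrg, hi]
    have hsum : ∀ x y, ind (a (mrg M x0 x) (mrg M y0 y) = 0) =
        ∑ τ, ind (f τ x) * ind (g τ y) := by
      intro x y
      have h1 := ha (mrg M x0 x) x0 (mrg M y0 y) y0 (fun i hi => hM x0 x i hi)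
        (fun i hi => hM y0 y i hi)
      have h2 : a (mrg M x0 x) (mrg M y0 y) = 0 ↔
          a (mrg M x0 x) y0 = a x0 (mrg M y0 y) + a x0 y0 := by
        rw [h1, add_assoc]
        constructor
        · intro h
          funext l
          exact z2a _ _ _ (congrFun h l)
        · intro h
          rw [h]
          funext l
          exact z2b _ _
      rw [Finset.sum_eq_single (a (mrg M x0 x) y0)]
      · rw [ind_true (rfl : f _ x), one_mul]
        congr 1
        apply propext
        rw [h2]
        exact ⟨fun h => h.symm, fun h => Eq.symm h⟩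
      · intro τ _ hτ
        rw [ind_false (fun h : f τ x => hτ (Eq.symm h)), zero_mul]
      · intro h
        exact absurd (Finset.mem_univ _) h
    have h1 : ∀ x y, ind (a (mrg M x0 x) (mrg M y0 y) = 0 ∧
        conj (mrg M x0 x) (mrg M y0 y) = zero n) ≤
        ∑ τ, ind (f τ x) * ind (g τ y) *
          ind (∀ i, (!M i) = true → (x i && y i) = false) := by
      intro x y
      rw [← Finset.sum_mul, ← hsum, ind_and]
      apply ind_mono
      rintro ⟨h, h'⟩
      refine ⟨h, fun i hi => ?_⟩
      have h2 := congrFun h' i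
      have h3 : M i ≠ true := by
        intro h4
        rw [h4] at hi
        simp at hi
      simp only [conj, mrg, zero, if_neg h3] at h2
      exact h2
    refine (ex2_mono hinv0.le hr1 n h1).trans ?_
    rw [ex2_sum]
    have h2 : ∀ τ, ex2 (1 / (m : ℝ)) n (fun x y => ind (f τ x) * ind (g τ y) *
        ind (∀ i, (!M i) = true → (x i && y i) = false)) ≤
        (1 - 1 / (22 * (m : ℝ) ^ 2)) ^ v * (α * (ex (1 / (m : ℝ)) n (fun x => ind (f τ x)) *
          ex (1 / (m : ℝ)) n fun y => ind (g τ y)) + β) := by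
      intro τ
      have h3 := tensorV hm n (f := fun x => ind (f τ x)) (g := fun y => ind (g τ y))
        (fun x => ind_nonneg _) (fun x => ind_nonneg _) (fun i => !M i)
      refine h3.trans ?_
      have hx : 0 ≤ ex (1 / (m : ℝ)) n fun x => ind (f τ x) :=
        ex_nonneg hinv0.le hr1 n fun x => ind_nonneg _
      have hy : 0 ≤ ex (1 / (m : ℝ)) n fun x => ind (g τ x) :=
        ex_nonneg hinv0.le hr1 n fun x => ind_nonneg _
      rw [hnrm, hnrm, ← Real.mul_rpow hx hy]
      have h4 : (1 - 1 / (22 * (m : ℝ) ^ 2)) ^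
          (Finset.univ.filter fun i => (!M i) = true).card ≤
          (1 - 1 / (22 * (m : ℝ) ^ 2)) ^ v := by
        apply pow_le_pow_of_le_one hg0 hg1
        refine hv.trans (le_of_eq ?_)
        congr 1
        ext i
        simp
      apply mul_le_mul h4 (hP _ (mul_nonneg hx hy)) (Real.rpow_nonneg (mul_nonneg hx hy) _)
        (pow_nonneg hg0 _)
    refine (Finset.sum_le_sum fun τ _ => h2 τ).trans (le_of_eq ?_)
    rw [← Finset.mul_sum, Finset.sum_add_distrib, ← Finset.mul_sum]
    have h5 : ∑ τ, ex (1 / (m : ℝ)) n (fun x => ind (f τ x)) *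
        ex (1 / (m : ℝ)) n (fun y => ind (g τ y)) =
        ex2 (1 / (m : ℝ)) n (fun x y => ind (a (mrg M x0 x) (mrg M y0 y) = 0)) := by
      simp only [hsum]
      rw [ex2_sum]
      refine Finset.sum_congr rfl fun τ _ => ?_
      rw [ex2_prod]
    rw [h5]
    have h6 : ∑ _τ : Fin d → ZMod 2, β = β * 2 ^ d := by
      rw [Finset.sum_const, Finset.card_univ, nsmul_eq_mul]
      simp [ZMod.card]
      ring
    rw [h6]
  rw [ex2_mrg (1 / (m : ℝ)) n M (fun x y => ind (a x y = 0 ∧ conj x y = zero n)),
    ex2_mrg (1 / (m : ℝ)) n M (fun x y => ind (a x y = 0))]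
  have h7 : ex (1 / (m : ℝ)) n (fun x0 => ex (1 / (m : ℝ)) n fun y0 =>
      ex2 (1 / (m : ℝ)) n (fun x y =>
      ind (a (mrg M x0 x) (mrg M y0 y) = 0 ∧ conj (mrg M x0 x) (mrg M y0 y) = zero n))) ≤
      ex (1 / (m : ℝ)) n (fun x0 => ex (1 / (m : ℝ)) n fun y0 =>
        (1 - 1 / (22 * (m : ℝ) ^ 2)) ^ v * (α * ex2 (1 / (m : ℝ)) n (fun x y =>
        ind (a (mrg M x0 x) (mrg M y0 y) = 0)) + β * 2 ^ d)) :=
    ex_mono hinv0.le hr1 n fun x0 => ex_mono hinv0.le hr1 n fun y0 => key x0 y0
  refine h7.trans (le_of_eq ?_)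
  simp only [ex_mul, ex_add, ex_const]

end Pool.Agent.N631.LX
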