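import Mathlib

/-!
# Linear data structures for set intersection queries (helper631)
-/

set_option autoImplicit false

namespace Pool.Agent.N631.LX

/-- One bit of the memory for a family of `2 k` subsets of a universe with `u` elements, given by
the sets `X i` of the first half and the sets `Y j` of the second half: a set `P` of bits of
answers (the bit `(i, j, e)` says whether the element `e` is in `X i ∩ Y j`), a function `f` of the
first half, and a function `g` of the second half. -/
structure Bit (k u : ℕ) where
  P : Finset (Fin k × Fin k × Fin u)
  f : (Fin k → Finset (Fin u)) → Bool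
  g : (Fin k → Finset (Fin u)) → Bool

/-- The value of the bit is the exclusive or of all these bits. -/
def Bit.val {k u : ℕ} (b : Bit k u) (X Y : Fin k → Finset (Fin u)) : Bool :=
  xor (xor (b.f X) (b.g Y))
    (decide (Odd (b.P.filter fun t => t.2.2 ∈ X t.1 ∩ Y t.2.1).card))

/-- An adaptive query algorithm for a memory with `r` bits: it gives the answer `a`, or it reads the
bit `c` and goes on with `t1` if it is `true`, and with `t0` if it is `false`. -/
inductive Tree (r : ℕ) : Type
  | answer (a : Bool) : Tree r
  | probe (c : Fin r) (t0 t1 : Tree r) : Tree r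

/-- the answer of the algorithm -/
def Tree.run {r : ℕ} (mem : Fin r → Bool) : Tree r → Bool
  | .answer a => a
  | .probe c t0 t1 => if mem c = true then t1.run mem else t0.run mem

/-- the largest number of bits which are read -/
def Tree.depth {r : ℕ} : Tree r → ℕ
  | .answer _ => 0
  | .probe _ t0 t1 => max t0.depth t1.depth + 1

/-- A data structure has a memory with `r` bits, and an algorithm for each query `(i, j)`. -/
structure DS (k u : ℕ) where
  r : ℕ
  bit : Fin r → Bit k u
  tree : Fin k → Fin k → Tree r

/-- the answer to the query `(i, j)` -/
def DS.answer {k u : ℕ} (D : DS k u) (X Y : Fin k → Finset (Fin u)) (i j : Fin k) : Bool :=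
  (D.tree i j).run fun c => (D.bit c).val X Y

/-- The space is the number of bits which contain bits of answers: bits which depend on one half of
the family only are free. -/
def DS.space {k u : ℕ} (D : DS k u) : ℕ :=
  (Finset.univ.filter fun c => (D.bit c).P.Nonempty).card

/-- The random data structure `D` (with the distribution `p`) decides for all families and all
queries `(i, j)` whether `X i` and `Y j` intersect, reading at most `t` bits, with error
probability at most `1 / 400`. -/
def Solves {k u : ℕ} {Ω : Type} [Fintype Ω] (p : Ω → ℝ) (D : Ω → DS k u) (t : ℕ) : Prop :=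
  (∀ ω, 0 ≤ p ω) ∧ ∑ ω, p ω = 1 ∧ (∀ ω i j, ((D ω).tree i j).depth ≤ t) ∧
    ∀ (X Y : Fin k → Finset (Fin u)) (i j : Fin k), ∀ E : Finset Ω,
      (∀ ω ∈ E, ¬ ((D ω).answer X Y i j = true ↔ (X i ∩ Y j).Nonempty)) →
      ∑ ω ∈ E, p ω ≤ 1 / 400

end Pool.Agent.N631.LX
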