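import Mathlib

/-!
# Expectations over independent coordinates, norms of product kernels (helper631)
-/

set_option autoImplicit false

namespace Pool.Agent.N631.LX

/-- expectation over `n` independent coordinates with the weights `μ` -/
noncomputable def EX {A : Type} [Fintype A] (μ : A → ℝ) : (n : ℕ) → ((Fin n → A) → ℝ) → ℝ
  | 0, f => f Fin.elim0
  | n + 1, f => ∑ a, μ a * EX μ n (fun z => f (Fin.cons a z))

section basic

variable {A : Type} [Fintype A] {μ : A → ℝ}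

theorem EX_add (n : ℕ) (f g : (Fin n → A) → ℝ) :
    EX μ n (fun x => f x + g x) = EX μ n f + EX μ n g := by
  induction n with
  | zero => rfl
  | succ n ih =>
    simp only [EX]
    rw [← Finset.sum_add_distrib]
    refine Finset.sum_congr rfl fun a _ => ?_
    rw [ih]
    ring

theorem EX_mul (n : ℕ) (c : ℝ) (f : (Fin n → A) → ℝ) :
    EX μ n (fun x => c * f x) = c * EX μ n f := by
  induction n with
  | zero => rfl
  | succ n ih =>
    simp only [EX]
    rw [Finset.mul_sum]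
    refine Finset.sum_congr rfl fun a _ => ?_
    rw [ih]
    ring

theorem EX_mul_right (n : ℕ) (c : ℝ) (f : (Fin n → A) → ℝ) :
    EX μ n (fun x => f x * c) = EX μ n f * c := by
  have : (fun x => f x * c) = fun x => c * f x := by
    funext x
    ring
  rw [this, EX_mul]
  ring

theorem EX_const (hμ : ∑ a, μ a = 1) (n : ℕ) (c : ℝ) : EX μ n (fun _ => c) = c := by
  induction n with
  | zero => rfl
  | succ n ih =>
    simp only [EX]
    simp only [ih]
    rw [← Finset.sum_mul, hμ, one_mul]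

theorem EX_mono (h0 : ∀ a, 0 ≤ μ a) (n : ℕ) {f g : (Fin n → A) → ℝ} (h : ∀ x, f x ≤ g x) :
    EX μ n f ≤ EX μ n g := by
  induction n with
  | zero => exact h _
  | succ n ih =>
    simp only [EX]
    exact Finset.sum_le_sum fun a _ => mul_le_mul_of_nonneg_left (ih fun x => h _) (h0 a)

theorem EX_zero (n : ℕ) : EX μ n (fun _ => 0) = 0 := by
  have := EX_mul (μ := μ) n 0 (fun _ => 0)
  simpa using this

theorem EX_nonneg (h0 : ∀ a, 0 ≤ μ a) (n : ℕ) {f : (Fin n → A) → ℝ} (h : ∀ x, 0 ≤ f x) :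
    0 ≤ EX μ n f := by
  have := EX_mono h0 n (f := fun _ => 0) (g := f) h
  rwa [EX_zero] at this

theorem EX_sum {ι : Type} (s : Finset ι) (n : ℕ) (f : ι → (Fin n → A) → ℝ) :
    EX μ n (fun x => ∑ i ∈ s, f i x) = ∑ i ∈ s, EX μ n (f i) := by
  classical
  induction s using Finset.induction_on with
  | empty => simp [EX_zero]
  | insert a s ha ih =>
    rw [Finset.sum_insert ha, ← ih, ← EX_add]
    congr 1
    funext x
    rw [Finset.sum_insert ha]

theorem EX_abs (h0 : ∀ a, 0 ≤ μ a) (n : ℕ) (f : (Fin n → A) → ℝ) :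
    |EX μ n f| ≤ EX μ n (fun x => |f x|) := by
  rw [abs_le]
  constructor
  · have := EX_mono h0 n (f := fun x => -1 * |f x|) (g := f) fun x => by
      have := neg_abs_le (f x)
      linarith
    rw [EX_mul] at this
    linarith
  · exact EX_mono h0 n fun x => le_abs_self _

/-- Cauchy-Schwarz -/
theorem sum_cs {ι : Type} (s : Finset ι) (w B P Q : ι → ℝ) (hw : ∀ i ∈ s, 0 ≤ w i)
    (hP : ∀ i ∈ s, 0 ≤ P i) (hQ : ∀ i ∈ s, 0 ≤ Q i) (h : ∀ i ∈ s, B i ^ 2 ≤ P i * Q i) :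
    (∑ i ∈ s, w i * B i) ^ 2 ≤ (∑ i ∈ s, w i * P i) * ∑ i ∈ s, w i * Q i := by
  have h1 : |∑ i ∈ s, w i * B i| ≤ ∑ i ∈ s, Real.sqrt (w i * P i) * Real.sqrt (w i * Q i) := by
    refine (Finset.abs_sum_le_sum_abs _ _).trans (Finset.sum_le_sum fun i hi => ?_)
    rw [← Real.sqrt_mul (mul_nonneg (hw i hi) (hP i hi)), abs_mul, abs_of_nonneg (hw i hi)]
    apply Real.le_sqrt_of_sq_le
    rw [mul_pow, sq_abs]
    have := h i hi
    have h2 := sq_nonneg (w i)
    nlinarith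
  have h3 := Finset.sum_mul_sq_le_sq_mul_sq s (fun i => Real.sqrt (w i * P i))
    (fun i => Real.sqrt (w i * Q i))
  have h4 : ∑ i ∈ s, Real.sqrt (w i * P i) ^ 2 = ∑ i ∈ s, w i * P i :=
    Finset.sum_congr rfl fun i hi => Real.sq_sqrt (mul_nonneg (hw i hi) (hP i hi))
  have h5 : ∑ i ∈ s, Real.sqrt (w i * Q i) ^ 2 = ∑ i ∈ s, w i * Q i :=
    Finset.sum_congr rfl fun i hi => Real.sq_sqrt (mul_nonneg (hw i hi) (hQ i hi))
  rw [h4, h5] at h3
  refine le_trans ?_ h3
  rw [← sq_abs]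
  exact pow_le_pow_left₀ (abs_nonneg _) h1 2

theorem EX_cs (h0 : ∀ a, 0 ≤ μ a) (n : ℕ) {B P Q : (Fin n → A) → ℝ} (hP : ∀ x, 0 ≤ P x)
    (hQ : ∀ x, 0 ≤ Q x) (h : ∀ x, B x ^ 2 ≤ P x * Q x) :
    EX μ n B ^ 2 ≤ EX μ n P * EX μ n Q := by
  induction n with
  | zero => exact h _
  | succ n ih =>
    simp only [EX]
    exact sum_cs _ _ _ _ _ (fun a _ => h0 a) (fun a _ => EX_nonneg h0 n fun x => hP _)
      (fun a _ => EX_nonneg h0 n fun x => hQ _)
      fun a _ => ih (fun x => hP _) (fun x => hQ _) fun x => h _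

/-- the two coordinates of pairs -/
theorem EX_prod {B : Type} [Fintype B] {ν : B → ℝ} (n : ℕ) (f : (Fin n → A × B) → ℝ) :
    EX (fun p : A × B => μ p.1 * ν p.2) n f =
      EX μ n (fun a => EX ν n (fun b => f fun i => (a i, b i))) := by
  induction n with
  | zero =>
    simp only [EX]
    congr 1
    funext i
    exact i.elim0
  | succ n ih =>
    simp only [EX]
    rw [Fintype.sum_prod_type]
    refine Finset.sum_congr rfl fun a _ => ?_
    rw [EX_sum, Finset.mul_sum]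
    refine Finset.sum_congr rfl fun b _ => ?_
    rw [ih, EX_mul, mul_assoc]
    congr 2
    congr 1
    funext a'
    congr 1
    funext b'
    congr 1
    funext i
    refine Fin.cases ?_ (fun j => ?_) i
    · simp
    · simp

end basic

/-- The kernel `K` has (with respect to the weights `μ`, `ν`) a norm whose square is at most `c`. -/
def NB {A B : Type} [Fintype A] [Fintype B] (μ : A → ℝ) (ν : B → ℝ) (K : A → B → ℝ) (c : ℝ) :
    Prop :=
  ∀ (F : A → ℝ) (G : B → ℝ), (∑ a, μ a * ∑ b, ν b * (F a * G b * K a b)) ^ 2 ≤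
    c * ((∑ a, μ a * F a ^ 2) * ∑ b, ν b * G b ^ 2)

variable {A B : Type} [Fintype A] [Fintype B] {μ : A → ℝ} {ν : B → ℝ}

theorem NB_one (hμ : ∀ a, 0 ≤ μ a) (hν : ∀ b, 0 ≤ ν b) (hμ1 : ∑ a, μ a = 1) (hν1 : ∑ b, ν b = 1)
    {K : A → B → ℝ} (hK : ∀ a b, |K a b| ≤ 1) : NB μ ν K 1 := by
  intro F G
  rw [one_mul]
  have h1 : |∑ a, μ a * ∑ b, ν b * (F a * G b * K a b)| ≤
      (∑ a, μ a * |F a|) * ∑ b, ν b * |G b| := by
    rw [Finset.sum_mul]
    refine (Finset.abs_sum_le_sum_abs _ _).trans (Finset.sum_le_sum fun a _ => ?_)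
    rw [abs_mul, abs_of_nonneg (hμ a), mul_assoc]
    apply mul_le_mul_of_nonneg_left _ (hμ a)
    rw [Finset.mul_sum]
    refine (Finset.abs_sum_le_sum_abs _ _).trans (Finset.sum_le_sum fun b _ => ?_)
    rw [abs_mul, abs_of_nonneg (hν b), abs_mul, abs_mul]
    have h2 := hK a b
    have h3 : 0 ≤ ν b * (|F a| * |G b|) := mul_nonneg (hν b) (by positivity)
    nlinarith
  have h2 : (∑ a, μ a * |F a|) ^ 2 ≤ ∑ a, μ a * F a ^ 2 := by
    have := sum_cs Finset.univ μ (fun a => |F a|) (fun _ => 1) (fun a => F a ^ 2)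
      (fun a _ => hμ a) (fun _ _ => zero_le_one) (fun a _ => sq_nonneg _)
      (fun a _ => by rw [one_mul, sq_abs])
    simpa [hμ1] using this
  have h3 : (∑ b, ν b * |G b|) ^ 2 ≤ ∑ b, ν b * G b ^ 2 := by
    have := sum_cs Finset.univ ν (fun a => |G a|) (fun _ => 1) (fun a => G a ^ 2)
      (fun a _ => hν a) (fun _ _ => zero_le_one) (fun a _ => sq_nonneg _)
      (fun a _ => by rw [one_mul, sq_abs])
    simpa [hν1] using this
  calc (∑ a, μ a * ∑ b, ν b * (F a * G b * K a b)) ^ 2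
      = |∑ a, μ a * ∑ b, ν b * (F a * G b * K a b)| ^ 2 := (sq_abs _).symm
    _ ≤ ((∑ a, μ a * |F a|) * ∑ b, ν b * |G b|) ^ 2 := pow_le_pow_left₀ (abs_nonneg _) h1 2
    _ = (∑ a, μ a * |F a|) ^ 2 * (∑ b, ν b * |G b|) ^ 2 := mul_pow _ _ _
    _ ≤ _ := mul_le_mul h2 h3 (sq_nonneg _) (le_trans (sq_nonneg _) h2)

/-- the norm of a product of kernels -/
theorem tensor (hμ : ∀ a, 0 ≤ μ a) (hν : ∀ b, 0 ≤ ν b) (n : ℕ) (K : Fin n → A → B → ℝ)
    (c : Fin n → ℝ) (hc : ∀ i, 0 ≤ c i) (hK : ∀ i, NB μ ν (K i) (c i))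
    (F : (Fin n → A) → ℝ) (G : (Fin n → B) → ℝ) :
    (EX μ n fun x => EX ν n fun y => F x * G y * ∏ i, K i (x i) (y i)) ^ 2 ≤
      (∏ i, c i) * ((EX μ n fun x => F x ^ 2) * EX ν n fun y => G y ^ 2) := by
  induction n with
  | zero =>
    simp only [EX, Finset.univ_eq_empty, Finset.prod_empty, mul_one, one_mul]
    exact le_of_eq (mul_pow _ _ _)
  | succ n ih =>
    simp only [EX]
    have hc' : 0 ≤ ∏ i : Fin n, c i.succ := Finset.prod_nonneg fun i _ => hc _
    -- the inner function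
    let h : B → (Fin n → A) → ℝ := fun b x => EX ν n fun y =>
      G (Fin.cons b y) * ∏ i : Fin n, K i.succ (x i) (y i)
    have e1 : (∑ a, μ a * EX μ n fun x => ∑ b, ν b * EX ν n fun y =>
        F (Fin.cons a x) * G (Fin.cons b y) *
          ∏ i : Fin (n + 1), K i ((Fin.cons a x : Fin (n + 1) → A) i)
            ((Fin.cons b y : Fin (n + 1) → B) i)) =
        EX μ n fun x => ∑ a, μ a * ∑ b, ν b * (F (Fin.cons a x) * h b x * K 0 a b) := by
      rw [EX_sum]
      refine Finset.sum_congr rfl fun a _ => ?_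
      rw [EX_mul]
      congr 2
      funext x
      refine Finset.sum_congr rfl fun b _ => ?_
      congr 1
      have : F (Fin.cons a x) * h b x * K 0 a b = (F (Fin.cons a x) * K 0 a b) * h b x := by ring
      rw [this, ← EX_mul]
      congr 1
      funext y
      rw [Fin.prod_univ_succ]
      simp only [Fin.cons_zero, Fin.cons_succ]
      ring
    rw [e1]
    have e2 : ∀ x : Fin n → A, (∑ a, μ a * ∑ b, ν b * (F (Fin.cons a x) * h b x * K 0 a b)) ^ 2 ≤
        (c 0 * ∑ a, μ a * F (Fin.cons a x) ^ 2) * ∑ b, ν b * h b x ^ 2 := by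
      intro x
      have := hK 0 (fun a => F (Fin.cons a x)) (fun b => h b x)
      linarith
    have e3 := EX_cs hμ n (B := fun x => ∑ a, μ a * ∑ b, ν b * (F (Fin.cons a x) * h b x * K 0 a b))
      (P := fun x => c 0 * ∑ a, μ a * F (Fin.cons a x) ^ 2) (Q := fun x => ∑ b, ν b * h b x ^ 2)
      (fun x => mul_nonneg (hc 0) (Finset.sum_nonneg fun a _ => mul_nonneg (hμ a) (sq_nonneg _)))
      (fun x => Finset.sum_nonneg fun b _ => mul_nonneg (hν b) (sq_nonneg _)) e2
    refine e3.trans ?_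
    rw [EX_mul, EX_sum, EX_sum, Fin.prod_univ_succ]
    simp only [EX_mul]
    have e4 : ∀ b, EX μ n (fun x => h b x ^ 2) ≤
        (∏ i : Fin n, c i.succ) * EX ν n fun y => G (Fin.cons b y) ^ 2 := by
      intro b
      have h1 := ih (fun i => K i.succ) (fun i => c i.succ) (fun i => hc _) (fun i => hK _)
        (h b) (fun y => G (Fin.cons b y))
      have h2 : (EX μ n fun x => EX ν n fun y => h b x * G (Fin.cons b y) *
          ∏ i : Fin n, K i.succ (x i) (y i)) = EX μ n fun x => h b x ^ 2 := by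
        congr 1
        funext x
        have : h b x ^ 2 = h b x * h b x := sq _
        rw [this]
        conv_rhs => rw [show h b x * h b x = h b x * EX ν n (fun y =>
          G (Fin.cons b y) * ∏ i : Fin n, K i.succ (x i) (y i)) from rfl]
        rw [← EX_mul]
        congr 1
        funext y
        ring
      rw [h2] at h1
      have h3 : 0 ≤ EX μ n fun x => h b x ^ 2 := EX_nonneg hμ n fun x => sq_nonneg _
      have h4 : 0 ≤ EX ν n fun y => G (Fin.cons b y) ^ 2 := EX_nonneg hν n fun x => sq_nonneg _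
      rcases h3.eq_or_lt with h5 | h5
      · rw [← h5]
        exact mul_nonneg hc' h4
      · have h6 : (EX μ n fun x => h b x ^ 2) * (EX μ n fun x => h b x ^ 2) ≤
            (EX μ n fun x => h b x ^ 2) * ((∏ i : Fin n, c i.succ) *
              EX ν n fun y => G (Fin.cons b y) ^ 2) := by
          calc _ = (EX μ n fun x => h b x ^ 2) ^ 2 := (sq _).symm
            _ ≤ _ := h1
            _ = _ := by ring
        exact le_of_mul_le_mul_left h6 h5
    have e5 : ∑ b, ν b * EX μ n (fun x => h b x ^ 2) ≤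
        (∏ i : Fin n, c i.succ) * ∑ b, ν b * EX ν n fun y => G (Fin.cons b y) ^ 2 := by
      rw [Finset.mul_sum]
      refine Finset.sum_le_sum fun b _ => ?_
      calc ν b * EX μ n (fun x => h b x ^ 2) ≤
          ν b * ((∏ i : Fin n, c i.succ) * EX ν n fun y => G (Fin.cons b y) ^ 2) :=
            mul_le_mul_of_nonneg_left (e4 b) (hν b)
        _ = _ := by ring
    have e6 : 0 ≤ ∑ a, μ a * EX μ n fun x => F (Fin.cons a x) ^ 2 :=
      Finset.sum_nonneg fun a _ => mul_nonneg (hμ a) (EX_nonneg hμ n fun x => sq_nonneg _)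
    calc (c 0 * ∑ a, μ a * EX μ n fun x => F (Fin.cons a x) ^ 2) *
          ∑ b, ν b * EX μ n (fun x => h b x ^ 2)
        ≤ (c 0 * ∑ a, μ a * EX μ n fun x => F (Fin.cons a x) ^ 2) *
          ((∏ i : Fin n, c i.succ) * ∑ b, ν b * EX ν n fun y => G (Fin.cons b y) ^ 2) :=
          mul_le_mul_of_nonneg_left e5 (mul_nonneg (hc 0) e6)
      _ = _ := by ring

/-- the norm of a kernel which is a product of one-sided functions and of `(-1) ^ (t s)` in two bits
`t`, `s` of the two sides -/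
theorem NB_bit (hμ : ∀ a, 0 ≤ μ a) (hν : ∀ b, 0 ≤ ν b) (hμ1 : ∑ a, μ a = 1) (hν1 : ∑ b, ν b = 1)
    {K : A → B → ℝ} (p q : Bool → ℝ) (hp : ∀ t, 0 ≤ p t) (hq : ∀ t, 0 ≤ q t) {c : ℝ} (hc : 0 ≤ c)
    (hpq : ∀ F G : Bool → ℝ, (∑ t, p t * ∑ s, q s * (F t * G s * if (t && s) = true then -1 else 1))
      ^ 2 ≤ c * ((∑ t, p t * F t ^ 2) * ∑ s, q s * G s ^ 2))
    (ρ : A → Bool → A) (τ : B → Bool → B)
    (hρ : ∀ f : A → ℝ, ∑ a, μ a * f a = ∑ a, μ a * ∑ t, p t * f (ρ a t))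
    (hτ : ∀ f : B → ℝ, ∑ b, ν b * f b = ∑ b, ν b * ∑ s, q s * f (τ b s))
    (hK : ∀ a b, ∃ φ ψ : Bool → ℝ, (∀ t, |φ t| ≤ 1) ∧ (∀ s, |ψ s| ≤ 1) ∧
      ∀ t s, K (ρ a t) (τ b s) = φ t * ψ s * if (t && s) = true then -1 else 1) :
    NB μ ν K c := by
  intro F G
  let P : A → ℝ := fun a => ∑ t, p t * F (ρ a t) ^ 2
  let Q : B → ℝ := fun b => ∑ s, q s * G (τ b s) ^ 2
  have hP : ∀ a, 0 ≤ P a := fun a => Finset.sum_nonneg fun t _ => mul_nonneg (hp t) (sq_nonneg _)
  have hQ : ∀ b, 0 ≤ Q b := fun b => Finset.sum_nonneg fun t _ => mul_nonneg (hq t) (sq_nonneg _)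
  let I : A → B → ℝ := fun a b => ∑ t, p t * ∑ s, q s * (F (ρ a t) * G (τ b s) * K (ρ a t) (τ b s))
  have hI : ∀ a b, I a b ^ 2 ≤ c * (P a * Q b) := by
    intro a b
    obtain ⟨φ, ψ, h1, h2, h3⟩ := hK a b
    have h4 := hpq (fun t => F (ρ a t) * φ t) (fun s => G (τ b s) * ψ s)
    have e1 : I a b = ∑ t, p t * ∑ s, q s * (F (ρ a t) * φ t * (G (τ b s) * ψ s) *
        if (t && s) = true then -1 else 1) := by
      refine Finset.sum_congr rfl fun t _ => ?_
      congr 1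
      refine Finset.sum_congr rfl fun s _ => ?_
      rw [h3]
      ring
    rw [e1]
    refine h4.trans ?_
    apply mul_le_mul_of_nonneg_left _ hc
    have h5 : ∀ z w : ℝ, |w| ≤ 1 → (z * w) ^ 2 ≤ z ^ 2 := by
      intro z w hw
      rw [mul_pow]
      have : w ^ 2 ≤ 1 := by
        rw [← sq_abs]
        exact pow_le_one₀ (abs_nonneg _) hw
      nlinarith [sq_nonneg z]
    apply mul_le_mul
    · exact Finset.sum_le_sum fun t _ => mul_le_mul_of_nonneg_left (h5 _ _ (h1 t)) (hp t)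
    · exact Finset.sum_le_sum fun t _ => mul_le_mul_of_nonneg_left (h5 _ _ (h2 t)) (hq t)
    · exact Finset.sum_nonneg fun t _ => mul_nonneg (hq t) (sq_nonneg _)
    · exact hP a
  have e1 : ∑ a, μ a * ∑ b, ν b * (F a * G b * K a b) = ∑ a, μ a * ∑ b, ν b * I a b := by
    rw [hρ fun a => ∑ b, ν b * (F a * G b * K a b)]
    refine Finset.sum_congr rfl fun a _ => ?_
    congr 1
    have h1 : ∀ t, ∑ b, ν b * (F (ρ a t) * G b * K (ρ a t) b) =
        ∑ b, ν b * ∑ s, q s * (F (ρ a t) * G (τ b s) * K (ρ a t) (τ b s)) := fun t =>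
      hτ fun b => F (ρ a t) * G b * K (ρ a t) b
    simp only [h1]
    calc ∑ t, p t * ∑ b, ν b * ∑ s, q s * (F (ρ a t) * G (τ b s) * K (ρ a t) (τ b s))
        = ∑ t, ∑ b, ν b * (p t * ∑ s, q s * (F (ρ a t) * G (τ b s) * K (ρ a t) (τ b s))) := by
          refine Finset.sum_congr rfl fun t _ => ?_
          rw [Finset.mul_sum]
          refine Finset.sum_congr rfl fun b _ => ?_
          ring
      _ = ∑ b, ∑ t, ν b * (p t * ∑ s, q s * (F (ρ a t) * G (τ b s) * K (ρ a t) (τ b s))) :=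
          Finset.sum_comm
      _ = _ := by
          refine Finset.sum_congr rfl fun b _ => ?_
          rw [Finset.mul_sum]
  rw [e1]
  have h2 : ∀ a, (∑ b, ν b * I a b) ^ 2 ≤ (c * P a) * ∑ b, ν b * Q b := by
    intro a
    have := sum_cs Finset.univ ν (I a) (fun _ => c * P a) Q (fun b _ => hν b)
      (fun b _ => mul_nonneg hc (hP a)) (fun b _ => hQ b) (fun b _ => by
        have := hI a b
        linarith)
    have e2 : ∑ b, ν b * (c * P a) = c * P a := by
      rw [← Finset.sum_mul, hν1, one_mul]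
    rwa [e2] at this
  have h3 := sum_cs Finset.univ μ (fun a => ∑ b, ν b * I a b) (fun a => c * P a)
    (fun _ => ∑ b, ν b * Q b) (fun a _ => hμ a) (fun a _ => mul_nonneg hc (hP a))
    (fun a _ => Finset.sum_nonneg fun b _ => mul_nonneg (hν b) (hQ b)) (fun a _ => h2 a)
  have e3 : ∑ a, μ a * ∑ b, ν b * Q b = ∑ b, ν b * Q b := by
    rw [← Finset.sum_mul, hμ1, one_mul]
  have e4 : ∑ a, μ a * (c * P a) = c * ∑ a, μ a * F a ^ 2 := by
    rw [hρ fun a => F a ^ 2, Finset.mul_sum]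
    refine Finset.sum_congr rfl fun a _ => ?_
    ring
  have e5 : ∑ b, ν b * Q b = ∑ b, ν b * G b ^ 2 := (hτ fun b => G b ^ 2).symm
  rw [e3, e4, e5] at h3
  linarith

/-- the two-point kernel, one side uniform -/
theorem two_left {ρ : ℝ} (h0 : 0 ≤ ρ) (h1 : ρ ≤ 1 / 2) (F G : Bool → ℝ) :
    (∑ t, (if t = true then ρ else 1 - ρ) * ∑ s : Bool, (1 / 2 : ℝ) *
      (F t * G s * if (t && s) = true then -1 else 1)) ^ 2 ≤
      (1 - ρ) * ((∑ t, (if t = true then ρ else 1 - ρ) * F t ^ 2) *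
        ∑ s, (1 / 2 : ℝ) * G s ^ 2) := by
  simp only [Fintype.sum_bool, if_true, Bool.and_true, Bool.and_false, Bool.false_eq_true,
    if_false, Bool.and_self]
  generalize F true = a
  generalize F false = b
  generalize G true = c
  generalize G false = d
  have e1 : ρ * (1 / 2 * (a * c * -1) + 1 / 2 * (a * d * 1)) +
      (1 - ρ) * (1 / 2 * (b * c * 1) + 1 / 2 * (b * d * 1)) =
      (1 - ρ) * b * ((c + d) / 2) + ρ * a * ((d - c) / 2) := by ring
  have e2 : 1 / 2 * c ^ 2 + 1 / 2 * d ^ 2 = ((c + d) / 2) ^ 2 + ((d - c) / 2) ^ 2 := by ring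
  rw [e1, e2]
  generalize (c + d) / 2 = P
  generalize (d - c) / 2 = Q
  have h2 : ((1 - ρ) * b * P + ρ * a * Q) ^ 2 ≤
      (((1 - ρ) * b) ^ 2 + (ρ * a) ^ 2) * (P ^ 2 + Q ^ 2) := by
    nlinarith [sq_nonneg ((1 - ρ) * b * Q - ρ * a * P)]
  have h3 : ((1 - ρ) * b) ^ 2 + (ρ * a) ^ 2 ≤ (1 - ρ) * (ρ * a ^ 2 + (1 - ρ) * b ^ 2) := by
    have : 0 ≤ ρ * (1 - ρ - ρ) * a ^ 2 := by
      apply mul_nonneg (mul_nonneg h0 (by linarith)) (sq_nonneg _)
    nlinarith
  calc _ ≤ _ := h2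
    _ ≤ ((1 - ρ) * (ρ * a ^ 2 + (1 - ρ) * b ^ 2)) * (P ^ 2 + Q ^ 2) :=
        mul_le_mul_of_nonneg_right h3 (by positivity)
    _ = _ := by ring

/-- the two-point kernel, the other side uniform -/
theorem two_right {ρ : ℝ} (h0 : 0 ≤ ρ) (h1 : ρ ≤ 1 / 2) (F G : Bool → ℝ) :
    (∑ t : Bool, (1 / 2 : ℝ) * ∑ s, (if s = true then ρ else 1 - ρ) *
      (F t * G s * if (t && s) = true then -1 else 1)) ^ 2 ≤
      (1 - ρ) * ((∑ t, (1 / 2 : ℝ) * F t ^ 2) *
        ∑ s, (if s = true then ρ else 1 - ρ) * G s ^ 2) := by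
  have h := two_left h0 h1 G F
  have e1 : (∑ t : Bool, (1 / 2 : ℝ) * ∑ s, (if s = true then ρ else 1 - ρ) *
      (F t * G s * if (t && s) = true then -1 else 1)) =
      ∑ t, (if t = true then ρ else 1 - ρ) * ∑ s : Bool, (1 / 2 : ℝ) *
      (G t * F s * if (t && s) = true then -1 else 1) := by
    simp only [Fintype.sum_bool, if_true, Bool.and_true, Bool.and_false, Bool.false_eq_true,
      if_false, Bool.and_self]
    ring
  rw [e1]
  refine h.trans (le_of_eq ?_)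
  ring

end Pool.Agent.N631.LX
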