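import Pool.Agent.N631.LX.Tree

/-!
# Linear data structures for set intersection: the lower bound (helper631)
-/

set_option autoImplicit false

namespace Pool.Agent.N631.LX

open Pool.Agent.W959 Pool.Agent.W959.Ent Pool.Agent.TH457.EntD

variable {k n : ℕ}

theorem exp12 : Real.exp (-12) ≤ 1 / 100000 := by
  have h1 : (2.7 : ℝ) ≤ Real.exp 1 := by
    have := Real.exp_one_gt_d9
    linarith
  have h2 : Real.exp 12 = Real.exp 1 ^ 12 := by
    rw [← Real.exp_nat_mul]
    norm_num
  have h3 : (100000 : ℝ) ≤ Real.exp 12 := by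
    rw [h2]
    calc (100000 : ℝ) ≤ 2.7 ^ 12 := by norm_num
      _ ≤ _ := pow_le_pow_left₀ (by norm_num) h1 12
  rw [Real.exp_neg, one_div]
  exact inv_anti₀ (by norm_num) h3

/-- the error on a good pair -/
theorem pair_error {R : ℕ} (c : Fin R → Fin k → Fin k → Fin n → ZMod 2)
    (f g : Fin R → (Fin k → Fin n → Bool) → ZMod 2) {t m : ℕ} (ht : 1 ≤ t)
    (hm : m = 1400 * t ^ 2) (hn : n = 1960000 * t ^ 4) (i0 j0 : Fin k)
    (W : Submodule (ZMod 2) (Fin k → Fin k → Fin n → ZMod 2)) (hW : ∀ l, c l ∈ W)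
    (Pu : Finset (Fin n)) (hPu : Pu.card ≤ 490000 * t ^ 4) (hgood : ∀ w ∈ W, pur w i0 j0 ⊆ Pu)
    (T : Tree R) (hT : T.depth ≤ t) :
    (1 / 250 : ℝ) ≤ E2 (1 / (m : ℝ)) i0 j0 (fun x y => ind (¬ (
      T.run (fun l => decide (bt c f g l x y = 1)) = true ↔ ¬ conj (x i0) (y j0) = zero n))) := by
  have ht2 : 1 ≤ t ^ 2 := Nat.one_le_pow _ _ ht
  have hm12 : 1200 ≤ m := by rw [hm]; omega
  have hm10 : 10 ≤ m := by omega
  have hm' : (1200 : ℝ) ≤ m := by exact_mod_cast hm12
  have hm0 : (0 : ℝ) < m := by linarith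
  have hinv : 1 / (m : ℝ) ≤ 1 / 10 := by
    apply one_div_le_one_div_of_le <;> linarith
  have hinv0 : 0 ≤ 1 / (m : ℝ) := by positivity
  have hinv2 : 1 / (m : ℝ) ≤ 1 / 2 := by linarith
  have hnm : n = m ^ 2 := by rw [hn, hm]; ring
  have hme : 100 * ((2 * t + 12 : ℕ) : ℝ) ≤ m := by
    have : 100 * (2 * t + 12) ≤ m := by
      have h1 : t ≤ t ^ 2 := by nlinarith
      rw [hm]
      omega
    exact_mod_cast this
  obtain ⟨e, he⟩ : ∃ e : ℝ, e = ((2 * t + 12 : ℕ) : ℝ) := ⟨_, rfl⟩
  rw [← he] at hme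
  obtain ⟨α, hα⟩ : ∃ α : ℝ, α = 2 ^ (e * (1 / ((m : ℝ) + 1))) := ⟨_, rfl⟩
  obtain ⟨β, hβ⟩ : ∃ β : ℝ, β = 2 ^ (-e * (1 - 1 / ((m : ℝ) + 1))) := ⟨_, rfl⟩
  have hα0 : 0 ≤ α := by rw [hα]; positivity
  have hβ0 : 0 ≤ β := by rw [hβ]; positivity
  have hα1 : α ≤ 1007 / 1000 := by rw [hα]; exact two_rpow_le hme
  have hβ1 : β * 2 ^ t * 2 ^ t ≤ 1007 / 1000 * (1 / 4096) := by
    have h1 : β * 2 ^ t * 2 ^ t = α * (1 / 4096) := by
      rw [hα, hβ, mul_assoc, ← pow_add, ← Real.rpow_natCast, ← Real.rpow_add (by norm_num),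
        show (1 / 4096 : ℝ) = 2 ^ (-12 : ℝ) by
          rw [Real.rpow_neg (by norm_num)]; norm_num,
        ← Real.rpow_add (by norm_num)]
      congr 1
      rw [he]
      push_cast
      ring
    rw [h1]
    exact mul_le_mul_of_nonneg_right hα1 (by norm_num)
  obtain ⟨κ, hκ⟩ : ∃ κ : ℝ, κ = (1 - 1 / (22 * (m : ℝ) ^ 2)) ^ (980000 * t ^ 4) := ⟨_, rfl⟩
  have hκ0 : 0 ≤ κ := by
    rw [hκ]
    apply pow_nonneg
    have : 1 / (22 * (m : ℝ) ^ 2) ≤ 1 := by
      rw [div_le_one (by positivity)]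
      nlinarith
    linarith
  have hκ1 : κ ≤ 979 / 1000 := by
    have h1 : κ * κ ≤ 22 / 23 := by
      rw [hκ, ← pow_add, show 980000 * t ^ 4 + 980000 * t ^ 4 = m ^ 2 by rw [hm]; ring]
      exact gamma_le hm10
    by_contra h
    push Not at h
    nlinarith
  obtain ⟨ε, hε⟩ : ∃ ε : ℝ, ε = Real.exp (-((t : ℝ) + 12)) := ⟨_, rfl⟩
  have hε0 : 0 ≤ ε := by rw [hε]; positivity
  have hr0 : (1 - 1 / (m : ℝ)) ^ (2 * m * (t + 12)) ≤ ε ^ 2 := by
    have h1 : 1 - 1 / (m : ℝ) ≤ Real.exp (-(1 / (m : ℝ))) := by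
      have := Real.add_one_le_exp (-(1 / (m : ℝ)))
      linarith
    calc (1 - 1 / (m : ℝ)) ^ (2 * m * (t + 12)) ≤ Real.exp (-(1 / (m : ℝ))) ^ (2 * m * (t + 12)) :=
          pow_le_pow_left₀ (by linarith) h1 _
      _ = ε ^ 2 := by
          rw [hε, ← Real.exp_nat_mul, ← Real.exp_nat_mul]
          congr 1
          push_cast
          field_simp
  have hM : t * (2 * m * (t + 12)) + 490000 * t ^ 4 + 980000 * t ^ 4 ≤ n := by
    rw [hn, hm]
    have h1 : t * (2 * (1400 * t ^ 2) * (t + 12)) + 490000 * t ^ 4 + 980000 * t ^ 4 =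
        1472800 * t ^ 4 + 33600 * t ^ 3 := by ring
    have h2 : t ^ 3 ≤ t ^ 4 := Nat.pow_le_pow_right ht (by norm_num)
    rw [h1]
    omega
  have h1 := tree_bound c f g hm10 i0 j0 (r0 := 2 * m * (t + 12)) (σ := 490000 * t ^ 4)
    (v := 980000 * t ^ 4) (t := t) W hW Pu hPu hgood hM hα0 hβ0 hε0 hr0
    (fun P hP => by rw [hα, hβ]; exact holder_leaf hm10 e P hP) T [] (by simpa using hT)
  have e0 : ∀ x y, onp c f g [] x y ↔ True := fun x y => by simp [onp]
  simp only [e0, true_and, ← hκ] at h1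
  obtain ⟨A, hA⟩ : ∃ A, A = E2 (1 / (m : ℝ)) i0 j0 (fun x y => ind (
        T.run (fun l => decide (bt c f g l x y = 1)) = false) *
        ind (conj (x i0) (y j0) = zero n)) := ⟨_, rfl⟩
  obtain ⟨w, hw⟩ : ∃ w, w = E2 (1 / (m : ℝ)) i0 j0 (fun x y => ind (¬ (
      T.run (fun l => decide (bt c f g l x y = 1)) = true ↔ ¬ conj (x i0) (y j0) = zero n))) :=
    ⟨_, rfl⟩
  rw [← hw]
  rw [← hA] at h1
  have hA0 : 0 ≤ A := by
    rw [hA]
    exact E2_nonneg hinv0 hinv2 fun x y => mul_nonneg (ind_nonneg _) (ind_nonneg _)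
  have hw0 : 0 ≤ w := by
    rw [hw]
    exact E2_nonneg hinv0 hinv2 fun x y => ind_nonneg _
  have h2 : E2 (1 / (m : ℝ)) i0 j0 (fun x y => ind (
      T.run (fun l => decide (bt c f g l x y = 1)) = false)) ≤ A + w := by
    rw [hA, hw, ← E2_add]
    apply E2_mono hinv0 hinv2
    intro x y
    by_cases h3 : T.run (fun l => decide (bt c f g l x y = 1)) = false
    · by_cases h4 : conj (x i0) (y j0) = zero n
      · rw [ind_true h3, ind_true h4]
        have := ind_nonneg (¬ (T.run (fun l => decide (bt c f g l x y = 1)) = true ↔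
          ¬ conj (x i0) (y j0) = zero n))
        linarith
      · have h5 : ¬ (T.run (fun l => decide (bt c f g l x y = 1)) = true ↔
            ¬ conj (x i0) (y j0) = zero n) := by
          rw [h3]
          simp [h4]
        rw [ind_true h3, ind_false h4, ind_true h5]
        norm_num
    · rw [ind_false h3, zero_mul, zero_add]
      exact ind_nonneg _
  have h3 : (366 / 1000 : ℝ) ≤ A + w := by
    have h4 : (366 / 1000 : ℝ) ≤
        E2 (1 / (m : ℝ)) i0 j0 (fun x y => ind (conj (x i0) (y j0) = zero n)) := by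
      have e6 : ∀ (vv : Fin n → Fin k → Bool) (x : Fin n → Bool),
          (fam i0 fun u => (vv u, x u)) i0 = x := by
        intro vv x
        funext u
        simp [fam, att]
      have e7 : ∀ (ww : Fin n → Fin k → Bool) (x : Fin n → Bool),
          (fam j0 fun u => (ww u, x u)) j0 = x := by
        intro vv x
        funext u
        simp [fam, att]
      rw [E2_split]
      simp only [e6, e7, ex2_disj, EX_const sum_half]
      rw [hnm]
      exact disj_ge hm12
    refine h4.trans ?_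
    rw [hA, hw, ← E2_add]
    apply E2_mono hinv0 hinv2
    intro x y
    by_cases h4 : conj (x i0) (y j0) = zero n
    · rw [ind_true h4]
      by_cases h3 : T.run (fun l => decide (bt c f g l x y = 1)) = false
      · rw [ind_true h3]
        have := ind_nonneg (¬ (T.run (fun l => decide (bt c f g l x y = 1)) = true ↔
          ¬ conj (x i0) (y j0) = zero n))
        linarith
      · have h5 : ¬ (T.run (fun l => decide (bt c f g l x y = 1)) = true ↔
            ¬ conj (x i0) (y j0) = zero n) := by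
          rw [Bool.not_eq_false] at h3
          rw [h3]
          simp [h4]
        rw [ind_true h5]
        have := mul_nonneg (ind_nonneg (T.run (fun l => decide (bt c f g l x y = 1)) = false))
          (zero_le_one (α := ℝ))
        linarith
    · rw [ind_false h4, mul_zero, zero_add]
      exact ind_nonneg _
  -- the error terms
  have h4 : (2 : ℝ) ^ T.depth * (κ * (α * ε + β * 2 ^ t) + ε) ≤ 3 / 10000 := by
    have h5 : (2 : ℝ) ^ T.depth ≤ 2 ^ t := pow_le_pow_right₀ (by norm_num) hT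
    have h6 : (2 : ℝ) ^ t * ε ≤ 1 / 100000 := by
      have h7 : (2 : ℝ) ^ t ≤ Real.exp t := by
        calc (2 : ℝ) ^ t ≤ Real.exp 1 ^ t := by
              apply pow_le_pow_left₀ (by norm_num)
              have := Real.add_one_le_exp (1 : ℝ)
              linarith
          _ = Real.exp t := by
              rw [← Real.exp_nat_mul]
              simp
      calc (2 : ℝ) ^ t * ε ≤ Real.exp t * ε := mul_le_mul_of_nonneg_right h7 hε0
        _ = Real.exp (-12) := by
            rw [hε, ← Real.exp_add]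
            congr 1
            ring
        _ ≤ _ := exp12
    have h7 : κ * (α * ε + β * 2 ^ t) + ε ≤ (α * ε + β * 2 ^ t) + ε := by
      have : 0 ≤ α * ε + β * 2 ^ t := by positivity
      nlinarith
    have h8 : 0 ≤ κ * (α * ε + β * 2 ^ t) + ε := by positivity
    calc (2 : ℝ) ^ T.depth * (κ * (α * ε + β * 2 ^ t) + ε)
        ≤ 2 ^ t * ((α * ε + β * 2 ^ t) + ε) := by
          apply mul_le_mul h5 h7 h8 (by positivity)
      _ = (α + 1) * (2 ^ t * ε) + β * 2 ^ t * 2 ^ t := by ring
      _ ≤ (1007 / 1000 + 1) * (1 / 100000) + 1007 / 1000 * (1 / 4096) := by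
          have : 0 ≤ (2 : ℝ) ^ t * ε := by positivity
          have h9 : (α + 1) * (2 ^ t * ε) ≤ (1007 / 1000 + 1) * (1 / 100000) :=
            mul_le_mul (by linarith) h6 this (by norm_num)
          linarith
      _ ≤ _ := by norm_num
  have h5 : κ * α ≤ 985853 / 1000000 := by
    calc κ * α ≤ 979 / 1000 * (1007 / 1000) := mul_le_mul hκ1 hα1 hα0 (by norm_num)
      _ = _ := by norm_num
  have h6 : κ * α * E2 (1 / (m : ℝ)) i0 j0 (fun x y => ind (
      T.run (fun l => decide (bt c f g l x y = 1)) = false)) ≤ 985853 / 1000000 * (A + w) := by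
    have h7 : 0 ≤ κ * α := by positivity
    calc _ ≤ κ * α * (A + w) := mul_le_mul_of_nonneg_left h2 h7
      _ ≤ _ := mul_le_mul_of_nonneg_right h5 (by linarith)
  linarith

/-- the number of pairs which are pure at one element in some vector of a space -/
theorem card_pure (W : Submodule (ZMod 2) (Fin k → Fin k → Fin n → ZMod 2)) (u : Fin n)
    (B : Finset (Fin k × Fin k)) (w : Fin k × Fin k → Fin k → Fin k → Fin n → ZMod 2)
    (hw : ∀ p ∈ B, w p ∈ W ∧ u ∈ pur (w p) p.1 p.2) : B.card ≤ Module.finrank (ZMod 2) W := by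
  classical
  let φ : (Fin k → Fin k → Fin n → ZMod 2) →ₗ[ZMod 2] (Fin k × Fin k → ZMod 2) :=
    { toFun := fun w p => w p.1 p.2 u
      map_add' := fun _ _ => rfl
      map_smul' := fun _ _ => rfl }
  let w' : B → W := fun p => ⟨w p.1, (hw p.1 p.2).1⟩
  have h1 : ∀ p : B, φ (w' p).1 = Pi.single p.1 1 := by
    rintro ⟨p, hp⟩
    have h2 := (Finset.mem_filter.1 (hw p hp).2).2
    funext q
    by_cases hq : q = p
    · subst hq
      rw [Pi.single_eq_same]
      rcases zmod2_cases (w q q.1 q.2 u) with h | h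
      · exact absurd h h2.1
      · exact h
    · rw [Pi.single_eq_of_ne hq]
      apply h2.2
      rintro ⟨h3, h4⟩
      exact hq (Prod.ext h3 h4)
  have h2 : LinearIndependent (ZMod 2) (fun p : B => (Pi.single p.1 1 :
      Fin k × Fin k → ZMod 2)) := by
    have := (Pi.basisFun (ZMod 2) (Fin k × Fin k)).linearIndependent
    have h3 := this.comp (fun p : B => p.1) Subtype.val_injective
    convert h3 using 1
    funext p
    simp
  have h3 : LinearIndependent (ZMod 2) w' := by
    apply LinearIndependent.of_comp (φ.comp W.subtype)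
    convert h2 using 1
    funext p
    exact h1 p
  have := h3.fintype_card_le_finrank
  simpa using this

/-- the elements at which some vector of the space contains only the pair `(i0, j0)` -/
noncomputable def Pur (W : Submodule (ZMod 2) (Fin k → Fin k → Fin n → ZMod 2)) (i0 j0 : Fin k) :
    Finset (Fin n) :=
  open Classical in Finset.univ.filter fun u => ∃ w ∈ W, u ∈ pur w i0 j0

/-- the number of bad pairs -/
theorem card_bad (W : Submodule (ZMod 2) (Fin k → Fin k → Fin n → ZMod 2)) (σ s : ℕ)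
    (hs : Module.finrank (ZMod 2) W ≤ s)
    (B : Finset (Fin k × Fin k)) (hB : ∀ p ∈ B, σ ≤ (Pur W p.1 p.2).card) :
    B.card * σ ≤ n * s := by
  classical
  calc B.card * σ = ∑ _p ∈ B, σ := by rw [Finset.sum_const, smul_eq_mul]
    _ ≤ ∑ p ∈ B, (Pur W p.1 p.2).card := Finset.sum_le_sum fun p hp => hB p hp
    _ = ∑ p ∈ B, ∑ u, if u ∈ Pur W p.1 p.2 then 1 else 0 := by
        refine Finset.sum_congr rfl fun p _ => ?_
        rw [Finset.card_eq_sum_ones, ← Finset.sum_filter]
        congr 1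
        ext u
        simp
    _ = ∑ u, ∑ p ∈ B, if u ∈ Pur W p.1 p.2 then 1 else 0 := Finset.sum_comm
    _ = ∑ u, (B.filter fun p => u ∈ Pur W p.1 p.2).card := by
        refine Finset.sum_congr rfl fun u _ => ?_
        rw [Finset.card_eq_sum_ones, Finset.sum_filter]
    _ ≤ ∑ _u : Fin n, s := by
        refine Finset.sum_le_sum fun u _ => ?_
        have h1 : ∀ p ∈ B.filter (fun p => u ∈ Pur W p.1 p.2), ∃ w ∈ W, u ∈ pur w p.1 p.2 :=
          fun p hp => (Finset.mem_filter.1 (Finset.mem_filter.1 hp).2).2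
        choose! w hw using h1
        exact (card_pure W u _ w hw).trans hs
    _ = n * s := by simp

end Pool.Agent.N631.LX
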