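import Pool.Agent.N631.LX.Final

/-!
# Linear data structures for set intersection: main theorem (helper631)
-/

set_option autoImplicit false

namespace Pool.Agent.N631.LX

open Pool.Agent.W959 Pool.Agent.W959.Ent Pool.Agent.TH457.EntD

variable {k n : ℕ}

/-- the sets given by bits -/
def sets (x : Fin k → Fin n → Bool) : Fin k → Finset (Fin n) := fun i => Ent.setOf (x i)

theorem b2_xor (a b : Bool) : b2 (xor a b) = b2 a + b2 b := by
  cases a <;> cases b <;> simp [b2]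
  decide

theorem b2_odd (N : ℕ) : b2 (decide (Odd N)) = (N : ZMod 2) := by
  rcases Nat.even_or_odd N with h | h
  · have h1 : ¬ Odd N := Nat.not_odd_iff_even.2 h
    rw [(ZMod.natCast_eq_zero_iff_even).2 h]
    simp [b2, h1]
  · rw [(ZMod.natCast_eq_one_iff_odd).2 h]
    simp [b2, h]

/-- the coefficients of a bit -/
def coef (b : Bit k n) : Fin k → Fin k → Fin n → ZMod 2 :=
  fun i j u => if (i, j, u) ∈ b.P then 1 else 0

theorem val_eq (b : Bit k n) (x y : Fin k → Fin n → Bool) :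
    b2 (b.val (sets x) (sets y)) = b2 (b.f (sets x)) + b2 (b.g (sets y)) + exc (coef b) x y := by
  unfold Bit.val
  rw [b2_xor, b2_xor, b2_odd]
  congr 1
  rw [Finset.card_eq_sum_ones, Finset.sum_filter]
  push_cast
  unfold exc coef
  have h1 : (∑ u, ∑ i, ∑ j, (if (i, j, u) ∈ b.P then (1 : ZMod 2) else 0) *
      b2 (x i u && y j u)) = ∑ t : Fin k × Fin k × Fin n, (if t ∈ b.P then (1 : ZMod 2) else 0) *
      b2 (x t.1 t.2.2 && y t.2.1 t.2.2) := by
    rw [Fintype.sum_prod_type]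
    simp only [Fintype.sum_prod_type]
    rw [Finset.sum_comm]
    refine Finset.sum_congr rfl fun i _ => ?_
    rw [Finset.sum_comm]
  rw [h1, ← Finset.sum_filter_add_sum_filter_not Finset.univ (· ∈ b.P)]
  have h2 : ∑ t ∈ Finset.univ.filter (fun t => ¬ t ∈ b.P),
      (if t ∈ b.P then (1 : ZMod 2) else 0) * b2 (x t.1 t.2.2 && y t.2.1 t.2.2) = 0 := by
    refine Finset.sum_eq_zero fun t ht => ?_
    rw [if_neg (Finset.mem_filter.1 ht).2, zero_mul]
  have h3 : Finset.univ.filter (fun t => t ∈ b.P) = b.P := by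
    ext t
    simp
  rw [h2, add_zero, h3]
  refine Finset.sum_congr rfl fun t ht => ?_
  rw [if_pos ht, one_mul]
  have h4 : t.2.2 ∈ sets x t.1 ∩ sets y t.2.1 ↔ (x t.1 t.2.2 && y t.2.1 t.2.2) = true := by
    simp [sets, Ent.setOf]
  by_cases h5 : (x t.1 t.2.2 && y t.2.1 t.2.2) = true
  · rw [if_pos (h4.2 h5), h5]
    simp [b2]
  · rw [if_neg (fun h => h5 (h4.1 h)), Bool.not_eq_true] at *
    rw [h5]
    simp [b2]

theorem decide_b2 (v : Bool) : decide (b2 v = 1) = v := by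
  cases v
  · simp [b2]
  · simp [b2]

/-- the error of one data structure, summed over all queries -/
theorem sum_error {t m s : ℕ} (ht : 1 ≤ t) (hm : m = 1400 * t ^ 2) (hn : n = 1960000 * t ^ 4)
    (D : DS k n) (hs : D.space ≤ s) (hd : ∀ i j, (D.tree i j).depth ≤ t) :
    ((k : ℝ) ^ 2 - 4 * s) * (1 / 250) ≤ ∑ p : Fin k × Fin k,
      E2 (1 / (m : ℝ)) p.1 p.2 (fun x y => ind (¬ (D.answer (sets x) (sets y) p.1 p.2 = true ↔
        (sets x p.1 ∩ sets y p.2).Nonempty))) := by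
  classical
  have ht2 : 1 ≤ t ^ 2 := Nat.one_le_pow _ _ ht
  have hm2 : 2 ≤ m := by rw [hm]; omega
  have hm' : (2 : ℝ) ≤ m := by exact_mod_cast hm2
  have hinv0 : 0 ≤ 1 / (m : ℝ) := by positivity
  have hinv2 : 1 / (m : ℝ) ≤ 1 / 2 := by
    apply one_div_le_one_div_of_le <;> linarith
  let c : Fin D.r → Fin k → Fin k → Fin n → ZMod 2 := fun l => coef (D.bit l)
  let f : Fin D.r → (Fin k → Fin n → Bool) → ZMod 2 := fun l x => b2 ((D.bit l).f (sets x))
  let g : Fin D.r → (Fin k → Fin n → Bool) → ZMod 2 := fun l x => b2 ((D.bit l).g (sets x))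
  let J : Finset (Fin k → Fin k → Fin n → ZMod 2) :=
    (Finset.univ.filter fun l => (D.bit l).P.Nonempty).image c
  let W : Submodule (ZMod 2) (Fin k → Fin k → Fin n → ZMod 2) := Submodule.span (ZMod 2) (J : Set _)
  have hW : ∀ l, c l ∈ W := by
    intro l
    by_cases h : (D.bit l).P.Nonempty
    · exact Submodule.subset_span (Finset.mem_coe.2 (Finset.mem_image.2
        ⟨l, Finset.mem_filter.2 ⟨Finset.mem_univ _, h⟩, rfl⟩))
    · rw [Finset.not_nonempty_iff_eq_empty] at h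
      have : c l = 0 := by
        funext i j u
        simp [c, coef, h]
      rw [this]
      exact Submodule.zero_mem _
  have hrank : Module.finrank (ZMod 2) W ≤ s :=
    (finrank_span_finset_le_card J).trans (Finset.card_image_le.trans hs)
  let B : Finset (Fin k × Fin k) := Finset.univ.filter fun p =>
    490000 * t ^ 4 < (Pur W p.1 p.2).card
  have hB := card_bad W (490000 * t ^ 4) s hrank B fun p hp => (Finset.mem_filter.1 hp).2.le
  have hB' : (B.card : ℝ) ≤ 4 * s := by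
    have h1 : B.card * (490000 * t ^ 4) ≤ (4 * s) * (490000 * t ^ 4) := by
      refine hB.trans (le_of_eq ?_)
      rw [hn]
      ring
    have h2 : B.card ≤ 4 * s := by
      refine Nat.le_of_mul_le_mul_right h1 ?_
      have : 1 ≤ t ^ 4 := Nat.one_le_pow _ _ ht
      omega
    exact_mod_cast h2
  have hrun : ∀ x y (p : Fin k × Fin k), D.answer (sets x) (sets y) p.1 p.2 =
      (D.tree p.1 p.2).run (fun l => decide (bt c f g l x y = 1)) := by
    intro x y p
    unfold DS.answer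
    congr 1
    funext l
    have : bt c f g l x y = b2 ((D.bit l).val (sets x) (sets y)) := by
      rw [val_eq]
      rfl
    rw [this, decide_b2]
  have hcond : ∀ x y (p : Fin k × Fin k), (sets x p.1 ∩ sets y p.2).Nonempty ↔
      ¬ conj (x p.1) (y p.2) = zero n := by
    intro x y p
    rw [← disjoint_iff, ← Finset.not_disjoint_iff_nonempty_inter]
    rfl
  have herr : ∀ p : Fin k × Fin k, p ∉ B → (1 / 250 : ℝ) ≤
      E2 (1 / (m : ℝ)) p.1 p.2 (fun x y => ind (¬ (D.answer (sets x) (sets y) p.1 p.2 = true ↔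
        (sets x p.1 ∩ sets y p.2).Nonempty))) := by
    intro p hp
    have h1 := pair_error c f g ht hm hn p.1 p.2 W hW (Pur W p.1 p.2) (by
      by_contra h
      push Not at h
      exact hp (Finset.mem_filter.2 ⟨Finset.mem_univ _, h⟩))
      (fun w hw u hu => Finset.mem_filter.2 ⟨Finset.mem_univ _, w, hw, hu⟩)
      (D.tree p.1 p.2) (hd _ _)
    simp only [hrun, hcond]
    exact h1
  calc ((k : ℝ) ^ 2 - 4 * s) * (1 / 250) ≤ ((k : ℝ) ^ 2 - B.card) * (1 / 250) := by
        apply mul_le_mul_of_nonneg_right _ (by norm_num)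
        linarith
    _ = ∑ p : Fin k × Fin k, if p ∈ B then (0 : ℝ) else 1 / 250 := by
        rw [Finset.sum_ite]
        have h1 : Finset.univ.filter (fun p => ¬ p ∈ B) = Bᶜ := by
          ext p
          simp
        rw [h1, Finset.sum_const_zero, zero_add, Finset.sum_const, Finset.card_compl,
          nsmul_eq_mul, Fintype.card_prod, Fintype.card_fin]
        rw [Nat.cast_sub (by
          have := Finset.card_le_univ B
          simpa using this)]
        push_cast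
        ring
    _ ≤ _ := by
        refine Finset.sum_le_sum fun p _ => ?_
        by_cases hp : p ∈ B
        · rw [if_pos hp]
          exact E2_nonneg hinv0 hinv2 fun x y => ind_nonneg _
        · rw [if_neg hp]
          exact herr p hp

/-- **Main theorem.** -/
theorem main (N t : ℕ) (ht : 1 ≤ t) : ∃ k u : ℕ, 2 * k * u ≤ N ∧
    ∀ (s : ℕ) (Ω : Type) [Fintype Ω] (p : Ω → ℝ) (D : Ω → DS k u),
      (∀ ω, (D ω).space ≤ s) → Solves p D t →
      (N : ℝ) ^ 2 ≤ 10 ^ 15 * (t : ℝ) ^ 8 * (s + 1) := by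
  classical
  obtain ⟨n, hn⟩ : ∃ n, n = 1960000 * t ^ 4 := ⟨_, rfl⟩
  obtain ⟨m, hm⟩ : ∃ m, m = 1400 * t ^ 2 := ⟨_, rfl⟩
  have ht4 : 1 ≤ t ^ 4 := Nat.one_le_pow _ _ ht
  have ht2 : 1 ≤ t ^ 2 := Nat.one_le_pow _ _ ht
  have hn1 : 1 ≤ n := by rw [hn]; omega
  obtain ⟨k, hk⟩ : ∃ k, k = N / (2 * n) := ⟨_, rfl⟩
  refine ⟨k, n, ?_, ?_⟩
  · rw [hk]
    calc 2 * (N / (2 * n)) * n = (N / (2 * n)) * (2 * n) := by ring
      _ ≤ N := Nat.div_mul_le_self _ _
  intro s Ω _ p D hs hD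
  obtain ⟨hp0, hp1, hdepth, hcor⟩ := hD
  have ht' : (1 : ℝ) ≤ t := by exact_mod_cast ht
  have hs0 : (0 : ℝ) ≤ s := Nat.cast_nonneg s
  have hnr : (n : ℝ) = 1960000 * (t : ℝ) ^ 4 := by
    rw [hn]
    push_cast
    ring
  have hm2 : 2 ≤ m := by rw [hm]; omega
  have hm' : (2 : ℝ) ≤ m := by exact_mod_cast hm2
  have hinv0 : 0 ≤ 1 / (m : ℝ) := by positivity
  have hinv2 : 1 / (m : ℝ) ≤ 1 / 2 := by
    apply one_div_le_one_div_of_le <;> linarith
  -- the average error
  have h1 : ∀ q : Fin k × Fin k, ∑ ω, p ω * E2 (1 / (m : ℝ)) q.1 q.2 (fun x y =>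
      ind (¬ ((D ω).answer (sets x) (sets y) q.1 q.2 = true ↔
        (sets x q.1 ∩ sets y q.2).Nonempty))) ≤ 1 / 400 := by
    intro q
    simp only [← E2_mul]
    rw [← E2_sum]
    have h2 := E2_mono (n := n) (i0 := q.1) (j0 := q.2) hinv0 hinv2
      (f := fun x y => ∑ ω, p ω * ind (¬ ((D ω).answer (sets x) (sets y) q.1 q.2 = true ↔
        (sets x q.1 ∩ sets y q.2).Nonempty))) (g := fun _ _ => 1 / 400) (by
      intro x y
      have h3 := hcor (sets x) (sets y) q.1 q.2 (Finset.univ.filter fun ω =>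
        ¬ ((D ω).answer (sets x) (sets y) q.1 q.2 = true ↔
        (sets x q.1 ∩ sets y q.2).Nonempty)) (fun ω hω => (Finset.mem_filter.1 hω).2)
      rw [Finset.sum_filter] at h3
      refine le_trans (le_of_eq ?_) h3
      refine Finset.sum_congr rfl fun ω _ => ?_
      by_cases h4 : ¬ ((D ω).answer (sets x) (sets y) q.1 q.2 = true ↔
        (sets x q.1 ∩ sets y q.2).Nonempty)
      · rw [ind_true h4, if_pos h4, mul_one]
      · rw [ind_false h4, if_neg h4, mul_zero])
    rwa [E2_const] at h2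
  have h2 : ∀ ω, ((k : ℝ) ^ 2 - 4 * s) * (1 / 250) ≤ ∑ q : Fin k × Fin k,
      E2 (1 / (m : ℝ)) q.1 q.2 (fun x y => ind (¬ ((D ω).answer (sets x) (sets y) q.1 q.2 = true ↔
        (sets x q.1 ∩ sets y q.2).Nonempty))) := fun ω =>
    sum_error ht hm hn (D ω) (hs ω) (hdepth ω)
  have h3 : ((k : ℝ) ^ 2 - 4 * s) * (1 / 250) ≤ (k : ℝ) ^ 2 * (1 / 400) := by
    calc ((k : ℝ) ^ 2 - 4 * s) * (1 / 250)
        = ∑ ω, p ω * (((k : ℝ) ^ 2 - 4 * s) * (1 / 250)) := by
          rw [← Finset.sum_mul, hp1, one_mul]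
      _ ≤ ∑ ω, p ω * ∑ q : Fin k × Fin k,
        E2 (1 / (m : ℝ)) q.1 q.2 (fun x y =>
          ind (¬ ((D ω).answer (sets x) (sets y) q.1 q.2 = true ↔
        (sets x q.1 ∩ sets y q.2).Nonempty))) :=
          Finset.sum_le_sum fun ω _ => mul_le_mul_of_nonneg_left (h2 ω) (hp0 ω)
      _ = ∑ q : Fin k × Fin k, ∑ ω, p ω *
        E2 (1 / (m : ℝ)) q.1 q.2 (fun x y =>
          ind (¬ ((D ω).answer (sets x) (sets y) q.1 q.2 = true ↔
        (sets x q.1 ∩ sets y q.2).Nonempty))) := by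
          rw [Finset.sum_comm]
          refine Finset.sum_congr rfl fun ω _ => ?_
          rw [Finset.mul_sum]
      _ ≤ ∑ _q : Fin k × Fin k, (1 / 400 : ℝ) := Finset.sum_le_sum fun q _ => h1 q
      _ = _ := by
          rw [Finset.sum_const, Finset.card_univ, nsmul_eq_mul, Fintype.card_prod,
            Fintype.card_fin]
          push_cast
          ring
  have h4 : 3 * (k : ℝ) ^ 2 ≤ 32 * s := by linarith
  by_cases hk0 : k = 0
  · have h5 : N < 2 * n := by
      by_contra h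
      push Not at h
      have : 1 ≤ N / (2 * n) := (Nat.one_le_div_iff (by omega)).2 h
      omega
    have h6 : (N : ℝ) ≤ 2 * n := by exact_mod_cast h5.le
    have h7 : (N : ℝ) ^ 2 ≤ (2 * n) ^ 2 := pow_le_pow_left₀ (Nat.cast_nonneg _) h6 2
    have h8 : ((2 : ℝ) * n) ^ 2 ≤ 10 ^ 15 * (t : ℝ) ^ 8 * (0 + 1) := by
      rw [hnr]
      have h10 : (0 : ℝ) ≤ (t : ℝ) ^ 8 := by positivity
      nlinarith
    have h9 : (10 : ℝ) ^ 15 * (t : ℝ) ^ 8 * (0 + 1) ≤ 10 ^ 15 * (t : ℝ) ^ 8 * (s + 1) := by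
      apply mul_le_mul_of_nonneg_left _ (by positivity)
      linarith
    linarith
  · have h5 : N < 2 * n * (k + 1) := by
      rw [hk]
      exact Nat.lt_mul_div_succ N (by omega)
    have h6 : N ≤ 4 * n * k := by
      have : 2 * n * (k + 1) ≤ 4 * n * k := by
        have h7 : 1 ≤ k := Nat.one_le_iff_ne_zero.2 hk0
        nlinarith
      omega
    have h7 : (N : ℝ) ≤ 4 * n * k := by exact_mod_cast h6
    have h8 : (N : ℝ) ^ 2 ≤ (4 * n * k) ^ 2 := pow_le_pow_left₀ (Nat.cast_nonneg _) h7 2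
    have h9 : ((4 : ℝ) * n * k) ^ 2 ≤ 10 ^ 15 * (t : ℝ) ^ 8 * s := by
      rw [hnr]
      have h10 : (0 : ℝ) ≤ (t : ℝ) ^ 8 := by positivity
      calc (4 * (1960000 * (t : ℝ) ^ 4) * k) ^ 2
          = (16 * 1960000 ^ 2 / 3) * (t : ℝ) ^ 8 * (3 * (k : ℝ) ^ 2) := by ring
        _ ≤ (16 * 1960000 ^ 2 / 3) * (t : ℝ) ^ 8 * (32 * s) :=
            mul_le_mul_of_nonneg_left h4 (by positivity)
        _ = (16 * 1960000 ^ 2 / 3 * 32) * ((t : ℝ) ^ 8 * s) := by ring
        _ ≤ 10 ^ 15 * ((t : ℝ) ^ 8 * s) := by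
            apply mul_le_mul_of_nonneg_right (by norm_num) (by positivity)
        _ = _ := by ring
    have h10 : (10 : ℝ) ^ 15 * (t : ℝ) ^ 8 * s ≤ 10 ^ 15 * (t : ℝ) ^ 8 * (s + 1) := by
      apply mul_le_mul_of_nonneg_left _ (by positivity)
      linarith
    linarith

end Pool.Agent.N631.LX
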