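import Pool.Agent.N631.LX.EX
import Pool.Agent.N631.LX.Corr

/-!
# Exclusive ors which are masked by other sets have small discrepancy (helper631)
-/

set_option autoImplicit false

namespace Pool.Agent.N631.LX

open Pool.Agent.W959 Pool.Agent.W959.Ent Pool.Agent.TH457.EntD

/-- the sign of an element of `ZMod 2` -/
noncomputable def chi (a : ZMod 2) : ℝ := if a = 0 then 1 else -1

theorem zmod2_cases (a : ZMod 2) : a = 0 ∨ a = 1 := by
  revert a
  decide

theorem chi_add (a b : ZMod 2) : chi (a + b) = chi a * chi b := by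
  unfold chi
  rcases zmod2_cases a with rfl | rfl <;> rcases zmod2_cases b with rfl | rfl
  · simp
  · simp
  · simp
  · have : (1 + 1 : ZMod 2) = 0 := by decide
    simp [this]

theorem chi_zero : chi 0 = 1 := by simp [chi]

theorem chi_abs (a : ZMod 2) : |chi a| = 1 := by
  unfold chi
  split <;> simp

theorem chi_sum {ι : Type} (s : Finset ι) (f : ι → ZMod 2) :
    chi (∑ i ∈ s, f i) = ∏ i ∈ s, chi (f i) := by
  classical
  induction s using Finset.induction_on with
  | empty => simp [chi_zero]
  | insert a s ha ih => rw [Finset.sum_insert ha, Finset.prod_insert ha, chi_add, ih]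

/-- a bit as an element of `ZMod 2` -/
def b2 (t : Bool) : ZMod 2 := if t = true then 1 else 0

theorem b2_and (s t : Bool) : b2 (s && t) = b2 s * b2 t := by
  cases s <;> cases t <;> simp [b2]

theorem chi_b2 (s t : Bool) : chi (b2 t * b2 s) = if (t && s) = true then -1 else 1 := by
  cases s <;> cases t <;> simp [b2, chi]

variable {k n : ℕ}

/-- the bits of the sets at one element of the universe -/
def att (i0 : Fin k) (a : (Fin k → Bool) × Bool) : Fin k → Bool :=
  fun i => if i = i0 then a.2 else a.1 i

/-- the family of sets, the set number `i0` is given by the last components -/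
def fam (i0 : Fin k) (z : Fin n → (Fin k → Bool) × Bool) : Fin k → Fin n → Bool :=
  fun i u => att i0 (z u) i

/-- the exclusive or of the bits given by `c` -/
def exc (c : Fin k → Fin k → Fin n → ZMod 2) (x y : Fin k → Fin n → Bool) : ZMod 2 :=
  ∑ u, ∑ i, ∑ j, c i j u * b2 (x i u && y j u)

/-- the weights at one element of the universe -/
noncomputable def wt (k : ℕ) (r : ℝ) (a : (Fin k → Bool) × Bool) : ℝ :=
  (∏ l : Fin k, (fun _ : Bool => (1 / 2 : ℝ)) (a.1 l)) * (if a.2 = true then r else 1 - r)

theorem wt_nonneg {r : ℝ} (h0 : 0 ≤ r) (h1 : r ≤ 1 / 2) (a : (Fin k → Bool) × Bool) :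
    0 ≤ wt k r a := by
  unfold wt
  apply mul_nonneg
  · exact Finset.prod_nonneg fun _ _ => by norm_num
  · split
    · exact h0
    · linarith

theorem sum_half : ∑ v : Fin k → Bool, ∏ l : Fin k, (fun _ : Bool => (1 / 2 : ℝ)) (v l) = 1 := by
  have := Finset.prod_univ_sum (fun _ : Fin k => (Finset.univ : Finset Bool))
    (fun _ _ => (1 / 2 : ℝ))
  rw [Fintype.piFinset_univ] at this
  rw [← this]
  simp

theorem sum_wt (r : ℝ) : ∑ a, wt k r a = 1 := by
  rw [Fintype.sum_prod_type]
  have : ∀ v : Fin k → Bool, ∑ t : Bool, wt k r (v, t) =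
      ∏ l : Fin k, (fun _ : Bool => (1 / 2 : ℝ)) (v l) := by
    intro v
    simp only [wt]
    rw [← Finset.mul_sum]
    simp only [Fintype.sum_bool, if_true, Bool.false_eq_true, if_false]
    ring
  simp only [this]
  exact sum_half

/-- the distribution of the resampled bit -/
noncomputable def pq (r : ℝ) (i0 i : Fin k) (t : Bool) : ℝ :=
  if i = i0 then (if t = true then r else 1 - r) else 1 / 2

/-- resampling of one bit -/
def rs (i0 i : Fin k) (a : (Fin k → Bool) × Bool) (t : Bool) : (Fin k → Bool) × Bool :=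
  if i = i0 then (a.1, t) else (Function.update a.1 i t, a.2)

theorem pq_nonneg {r : ℝ} (h0 : 0 ≤ r) (h1 : r ≤ 1 / 2) (i0 i : Fin k) (t : Bool) :
    0 ≤ pq r i0 i t := by
  unfold pq
  split
  · split
    · exact h0
    · linarith
  · norm_num

theorem att_rs (i0 i : Fin k) (a : (Fin k → Bool) × Bool) (t : Bool) :
    att i0 (rs i0 i a t) = Function.update (att i0 a) i t := by
  funext l
  by_cases hi : i = i0
  · subst hi
    simp only [rs, if_pos, att]
    by_cases hl : l = i
    · subst hl
      simp
    · simp [hl, att]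
  · simp only [rs, if_neg hi, att]
    by_cases hl : l = i
    · subst hl
      simp [hi]
    · rw [Function.update_of_ne hl, Function.update_of_ne hl]
      rfl

theorem sum_rs (r : ℝ) (i0 i : Fin k) (f : (Fin k → Bool) × Bool → ℝ) :
    ∑ a, wt k r a * f a = ∑ a, wt k r a * ∑ t, pq r i0 i t * f (rs i0 i a t) := by
  by_cases hi : i = i0
  · simp only [pq, rs, if_pos hi]
    rw [Fintype.sum_prod_type, Fintype.sum_prod_type]
    refine Finset.sum_congr rfl fun v _ => ?_
    simp only [wt]
    simp only [Fintype.sum_bool, if_true, Bool.false_eq_true, if_false]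
    ring
  · simp only [pq, rs, if_neg hi]
    rw [Fintype.sum_prod_type_right, Fintype.sum_prod_type_right]
    refine Finset.sum_congr rfl fun s _ => ?_
    have h := resample (fun _ : Bool => (1 / 2 : ℝ)) (by simp) i
      (fun v => (if s = true then r else 1 - r) * f (v, s))
    simp only [wt]
    calc ∑ v : Fin k → Bool, (∏ l, (fun _ : Bool => (1 / 2 : ℝ)) (v l)) *
          (if s = true then r else 1 - r) * f (v, s)
        = ∑ v : Fin k → Bool, (∏ l, (fun _ : Bool => (1 / 2 : ℝ)) (v l)) *
          ((if s = true then r else 1 - r) * f (v, s)) :=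
          Finset.sum_congr rfl fun v _ => by ring
      _ = _ := h
      _ = _ := by
          refine Finset.sum_congr rfl fun v _ => ?_
          rw [mul_assoc]
          congr 1
          rw [Finset.mul_sum]
          refine Finset.sum_congr rfl fun t _ => ?_
          ring

/-- the kernel at one element of the universe -/
noncomputable def ker (c : Fin k → Fin k → ZMod 2) (D : Bool) (i0 j0 : Fin k)
    (a b : (Fin k → Bool) × Bool) : ℝ :=
  chi (∑ i, ∑ j, c i j * b2 (att i0 a i && att j0 b j)) *
    if (D && (a.2 && b.2)) = true then 0 else 1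

theorem ker_abs (c : Fin k → Fin k → ZMod 2) (D : Bool) (i0 j0 : Fin k)
    (a b : (Fin k → Bool) × Bool) : |ker c D i0 j0 a b| ≤ 1 := by
  unfold ker
  rw [abs_mul, chi_abs, one_mul]
  split <;> simp

theorem split_sum (c : Fin k → Fin k → ZMod 2) (x y : Fin k → Bool) (i j : Fin k) :
    ∃ A B C : ZMod 2, ∀ s t : Bool,
      ∑ i', ∑ j', c i' j' * b2 (Function.update x i t i' && Function.update y j s j') =
        b2 t * b2 s * c i j + b2 t * A + b2 s * B + C := by
  refine ⟨∑ j' ∈ Finset.univ.erase j, c i j' * b2 (y j'),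
    ∑ i' ∈ Finset.univ.erase i, c i' j * b2 (x i'),
    ∑ i' ∈ Finset.univ.erase i, ∑ j' ∈ Finset.univ.erase j, c i' j' * (b2 (x i') * b2 (y j')), ?_⟩
  intro s t
  simp only [b2_and]
  rw [← Finset.add_sum_erase Finset.univ _ (Finset.mem_univ i)]
  rw [← Finset.add_sum_erase Finset.univ (fun j' => c i j' * (b2 (Function.update x i t i) *
    b2 (Function.update y j s j'))) (Finset.mem_univ j)]
  have h1 : ∑ j' ∈ Finset.univ.erase j, c i j' * (b2 (Function.update x i t i) *
      b2 (Function.update y j s j')) = b2 t * ∑ j' ∈ Finset.univ.erase j, c i j' * b2 (y j') := by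
    rw [Finset.mul_sum]
    refine Finset.sum_congr rfl fun j' hj => ?_
    rw [Function.update_self, Function.update_of_ne (Finset.ne_of_mem_erase hj)]
    ring
  have h2 : ∀ i' ∈ Finset.univ.erase i, ∑ j', c i' j' * (b2 (Function.update x i t i') *
      b2 (Function.update y j s j')) = b2 s * (c i' j * b2 (x i')) +
      ∑ j' ∈ Finset.univ.erase j, c i' j' * (b2 (x i') * b2 (y j')) := by
    intro i' hi
    rw [← Finset.add_sum_erase Finset.univ _ (Finset.mem_univ j)]
    rw [Function.update_of_ne (Finset.ne_of_mem_erase hi), Function.update_self]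
    congr 1
    · ring
    · refine Finset.sum_congr rfl fun j' hj => ?_
      rw [Function.update_of_ne (Finset.ne_of_mem_erase hj)]
  rw [Finset.sum_congr rfl h2, h1, Finset.sum_add_distrib, ← Finset.mul_sum,
    Function.update_self, Function.update_self]
  ring

theorem ker_norm {r : ℝ} (h0 : 0 ≤ r) (h1 : r ≤ 1 / 2) (c : Fin k → Fin k → ZMod 2) (D : Bool)
    (i0 j0 i j : Fin k) (hij : ¬ (i = i0 ∧ j = j0)) (hc : c i j ≠ 0) :
    NB (wt k r) (wt k r) (ker c D i0 j0) (1 - r) := by
  have hc1 : c i j = 1 := by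
    rcases zmod2_cases (c i j) with h | h
    · exact absurd h hc
    · exact h
  refine NB_bit (wt_nonneg h0 h1) (wt_nonneg h0 h1) (sum_wt r) (sum_wt r) (pq r i0 i) (pq r j0 j)
    (pq_nonneg h0 h1 _ _) (pq_nonneg h0 h1 _ _) (by linarith) ?_ (rs i0 i) (rs j0 j)
    (sum_rs r i0 i) (sum_rs r j0 j) ?_
  · intro F G
    by_cases hi : i = i0
    · have hj : j ≠ j0 := fun h => hij ⟨hi, h⟩
      simp only [pq, if_pos hi, if_neg hj]
      exact two_left h0 h1 F G
    · by_cases hj : j = j0
      · simp only [pq, if_neg hi, if_pos hj]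
        exact two_right h0 h1 F G
      · simp only [pq, if_neg hi, if_neg hj]
        have h := two_left (ρ := 1 / 2) (by norm_num) (by norm_num) F G
        have e : ∀ t : Bool, (if t = true then (1 / 2 : ℝ) else 1 - 1 / 2) = 1 / 2 := by
          intro t
          cases t <;> norm_num
        simp only [e] at h
        refine h.trans ?_
        apply mul_le_mul_of_nonneg_right (by linarith)
        apply mul_nonneg
        · exact Finset.sum_nonneg fun t _ => by positivity
        · exact Finset.sum_nonneg fun t _ => by positivity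
  · intro a b
    obtain ⟨A, B, C, hABC⟩ := split_sum c (att i0 a) (att j0 b) i j
    have hker : ∀ t s, ker c D i0 j0 (rs i0 i a t) (rs j0 j b s) =
        chi (b2 t * A) * (chi (b2 s * B) * chi C) * (if (t && s) = true then -1 else 1) *
          if (D && ((rs i0 i a t).2 && (rs j0 j b s).2)) = true then 0 else 1 := by
      intro t s
      unfold ker
      rw [att_rs, att_rs, hABC, hc1, mul_one, chi_add, chi_add, chi_add, chi_b2]
      ring
    by_cases hi : i = i0
    · have hj : j ≠ j0 := fun h => hij ⟨hi, h⟩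
      refine ⟨fun t => chi (b2 t * A) * if (D && (t && b.2)) = true then 0 else 1,
        fun s => chi (b2 s * B) * chi C, ?_, ?_, ?_⟩
      · intro t
        rw [abs_mul, chi_abs, one_mul]
        split <;> simp
      · intro s
        rw [abs_mul, chi_abs, chi_abs, one_mul]
      · intro t s
        rw [hker]
        simp only [rs, if_pos hi, if_neg hj]
        ring
    · refine ⟨fun t => chi (b2 t * A), fun s => chi (b2 s * B) * chi C *
        if (D && (a.2 && (rs j0 j b s).2)) = true then 0 else 1, ?_, ?_, ?_⟩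
      · intro t
        rw [chi_abs]
      · intro s
        rw [abs_mul, abs_mul, chi_abs, chi_abs, one_mul, one_mul]
        split <;> simp
      · intro t s
        rw [hker, show (rs i0 i a t).2 = a.2 from by simp only [rs, if_neg hi]]
        ring

/-- **Masks.** -/
theorem mask {r : ℝ} (h0 : 0 ≤ r) (h1 : r ≤ 1 / 2) (c : Fin k → Fin k → Fin n → ZMod 2) (D : Bool)
    (i0 j0 : Fin k) (T : Finset (Fin n))
    (hT : ∀ u ∈ T, ∃ i j, ¬ (i = i0 ∧ j = j0) ∧ c i j u ≠ 0)
    (F G : (Fin n → (Fin k → Bool) × Bool) → ℝ) (hF : ∀ z, |F z| ≤ 1) (hG : ∀ z, |G z| ≤ 1) :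
    (EX (wt k r) n fun z => EX (wt k r) n fun z' => F z * G z' *
      (chi (exc c (fam i0 z) (fam j0 z')) *
        ∏ u, if (D && ((z u).2 && (z' u).2)) = true then 0 else 1)) ^ 2 ≤ (1 - r) ^ T.card := by
  classical
  have h2 := tensor (μ := wt k r) (ν := wt k r) (wt_nonneg h0 h1) (wt_nonneg h0 h1) n
    (fun u => ker (fun i j => c i j u) D i0 j0) (fun u => if u ∈ T then 1 - r else 1)
    (by
      intro u
      split
      · linarith
      · norm_num)
    (by
      intro u
      by_cases hu : u ∈ T
      · simp only [if_pos hu]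
        obtain ⟨i, j, hij, hc⟩ := hT u hu
        exact ker_norm h0 h1 (fun i j => c i j u) D i0 j0 i j hij hc
      · simp only [if_neg hu]
        exact NB_one (wt_nonneg h0 h1) (wt_nonneg h0 h1) (sum_wt r) (sum_wt r)
          (ker_abs _ D i0 j0))
    F G
  have e1 : ∀ z z' : Fin n → (Fin k → Bool) × Bool, (chi (exc c (fam i0 z) (fam j0 z')) *
        ∏ u, if (D && ((z u).2 && (z' u).2)) = true then 0 else 1) =
      ∏ u, ker (fun i j => c i j u) D i0 j0 (z u) (z' u) := by
    intro z z'
    unfold exc ker
    rw [chi_sum, ← Finset.prod_mul_distrib]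
    rfl
  simp only [e1]
  refine h2.trans ?_
  have e2 : ∏ u : Fin n, (if u ∈ T then 1 - r else 1) = (1 - r) ^ T.card := by
    rw [Finset.prod_ite_mem, Finset.univ_inter, Finset.prod_const]
  rw [e2]
  have e3 : ∀ H : (Fin n → (Fin k → Bool) × Bool) → ℝ, (∀ z, |H z| ≤ 1) →
      EX (wt k r) n (fun z => H z ^ 2) ≤ 1 ∧ 0 ≤ EX (wt k r) n (fun z => H z ^ 2) := by
    intro H hH
    refine ⟨?_, EX_nonneg (wt_nonneg h0 h1) n fun z => sq_nonneg _⟩
    have := EX_mono (wt_nonneg h0 h1) n (f := fun z => H z ^ 2) (g := fun _ => (1 : ℝ)) fun z => by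
      have := hH z
      rw [← sq_abs]
      exact pow_le_one₀ (abs_nonneg _) this
    rwa [EX_const (sum_wt r)] at this
  have hF2 := e3 F hF
  have hG2 := e3 G hG
  have h3 : 0 ≤ (1 - r) ^ T.card := pow_nonneg (by linarith) _
  calc (1 - r) ^ T.card * ((EX (wt k r) n fun z => F z ^ 2) * EX (wt k r) n fun z => G z ^ 2)
      ≤ (1 - r) ^ T.card * (1 * 1) := by
        apply mul_le_mul_of_nonneg_left _ h3
        exact mul_le_mul hF2.1 hG2.1 hG2.2 zero_le_one
    _ = _ := by ring

end Pool.Agent.N631.LX
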