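import Pool.Agent.N631.LX.Mask

/-!
# The corruption bound for a path of a decision tree (helper631)
-/

set_option autoImplicit false

namespace Pool.Agent.N631.LX

open Pool.Agent.W959 Pool.Agent.W959.Ent Pool.Agent.TH457.EntD

theorem EX_comm {A B : Type} [Fintype A] [Fintype B] {μ : A → ℝ} {ν : B → ℝ} (n n' : ℕ)
    (h : (Fin n → A) → (Fin n' → B) → ℝ) :
    EX μ n (fun x => EX ν n' fun y => h x y) = EX ν n' (fun y => EX μ n fun x => h x y) := by
  induction n with
  | zero => simp only [EX]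
  | succ n ih =>
    simp only [EX]
    rw [EX_sum]
    refine Finset.sum_congr rfl fun a _ => ?_
    rw [ih, EX_mul]

theorem EX_ex (r : ℝ) (n : ℕ) (f : (Fin n → Bool) → ℝ) :
    EX (fun t : Bool => if t = true then r else 1 - r) n f = ex r n f := by
  induction n with
  | zero => rfl
  | succ n ih =>
    simp only [EX, ex, Fintype.sum_bool, if_true, Bool.false_eq_true, if_false, ih]
    ring

variable {k n : ℕ}

/-- the expectation over the hard distribution for the sets `i0`, `j0` -/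
noncomputable def E2 (r : ℝ) (i0 j0 : Fin k)
    (h : (Fin k → Fin n → Bool) → (Fin k → Fin n → Bool) → ℝ) : ℝ :=
  EX (wt k r) n fun z => EX (wt k r) n fun z' => h (fam i0 z) (fam j0 z')

section lin

variable {r : ℝ} {i0 j0 : Fin k}

theorem E2_add (f g : (Fin k → Fin n → Bool) → (Fin k → Fin n → Bool) → ℝ) :
    E2 r i0 j0 (fun x y => f x y + g x y) = E2 r i0 j0 f + E2 r i0 j0 g := by
  simp only [E2, EX_add]

theorem E2_mul (c : ℝ) (f : (Fin k → Fin n → Bool) → (Fin k → Fin n → Bool) → ℝ) :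
    E2 r i0 j0 (fun x y => c * f x y) = c * E2 r i0 j0 f := by
  simp only [E2, EX_mul]

theorem E2_sum {ι : Type} (s : Finset ι)
    (f : ι → (Fin k → Fin n → Bool) → (Fin k → Fin n → Bool) → ℝ) :
    E2 r i0 j0 (fun x y => ∑ i ∈ s, f i x y) = ∑ i ∈ s, E2 r i0 j0 (f i) := by
  simp only [E2, EX_sum]

theorem E2_mono (h0 : 0 ≤ r) (h1 : r ≤ 1 / 2)
    {f g : (Fin k → Fin n → Bool) → (Fin k → Fin n → Bool) → ℝ} (h : ∀ x y, f x y ≤ g x y) :
    E2 r i0 j0 f ≤ E2 r i0 j0 g :=
  EX_mono (wt_nonneg h0 h1) n fun _ => EX_mono (wt_nonneg h0 h1) n fun _ => h _ _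

theorem E2_const (c : ℝ) : E2 (n := n) r i0 j0 (fun _ _ => c) = c := by
  simp only [E2, EX_const (sum_wt r)]

theorem E2_nonneg (h0 : 0 ≤ r) (h1 : r ≤ 1 / 2)
    {f : (Fin k → Fin n → Bool) → (Fin k → Fin n → Bool) → ℝ} (h : ∀ x y, 0 ≤ f x y) :
    0 ≤ E2 r i0 j0 f := by
  have := E2_mono (i0 := i0) (j0 := j0) h0 h1 (f := fun _ _ => 0) (g := f) h
  rwa [E2_const] at this

theorem E2_split (f : (Fin k → Fin n → Bool) → (Fin k → Fin n → Bool) → ℝ) :
    E2 r i0 j0 f =
      EX (fun v : Fin k → Bool => ∏ l : Fin k, (fun _ : Bool => (1 / 2 : ℝ)) (v l)) n fun v =>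
      EX (fun v : Fin k → Bool => ∏ l : Fin k, (fun _ : Bool => (1 / 2 : ℝ)) (v l)) n fun w =>
        ex2 r n fun x y => f (fam i0 fun u => (v u, x u)) (fam j0 fun u => (w u, y u)) := by
  unfold E2 ex2
  have h1 : ∀ F : (Fin n → (Fin k → Bool) × Bool) → ℝ, EX (wt k r) n F =
      EX (fun v : Fin k → Bool => ∏ l : Fin k, (fun _ : Bool => (1 / 2 : ℝ)) (v l)) n fun v =>
        ex r n fun x => F fun u => (v u, x u) := by
    intro F
    have := EX_prod (μ := fun v : Fin k → Bool => ∏ l : Fin k, (fun _ : Bool => (1 / 2 : ℝ)) (v l))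
      (ν := fun t : Bool => if t = true then r else 1 - r) n F
    rw [show wt k r = fun p : (Fin k → Bool) × Bool =>
      (∏ l : Fin k, (fun _ : Bool => (1 / 2 : ℝ)) (p.1 l)) * (if p.2 = true then r else 1 - r)
      from rfl, this]
    simp only [EX_ex]
  rw [h1]
  congr 1
  funext v
  simp only [h1]
  simp only [← EX_ex]
  rw [EX_comm]

end lin

/-- the elements at which `c` contains only the pair `(i0, j0)` -/
noncomputable def pur (c : Fin k → Fin k → Fin n → ZMod 2) (i0 j0 : Fin k) : Finset (Fin n) :=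
  open Classical in Finset.univ.filter fun u =>
    c i0 j0 u ≠ 0 ∧ ∀ i j, ¬ (i = i0 ∧ j = j0) → c i j u = 0

/-- the elements at which `c` contains another pair than `(i0, j0)` -/
noncomputable def msk (c : Fin k → Fin k → Fin n → ZMod 2) (i0 j0 : Fin k) : Finset (Fin n) :=
  open Classical in Finset.univ.filter fun u => ∃ i j, ¬ (i = i0 ∧ j = j0) ∧ c i j u ≠ 0

theorem exc_add (c c' : Fin k → Fin k → Fin n → ZMod 2) (x y : Fin k → Fin n → Bool) :
    exc (fun i j u => c i j u + c' i j u) x y = exc c x y + exc c' x y := by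
  unfold exc
  simp only [add_mul, Finset.sum_add_distrib]

theorem exc_smul (a : ZMod 2) (c : Fin k → Fin k → Fin n → ZMod 2) (x y : Fin k → Fin n → Bool) :
    exc (fun i j u => a * c i j u) x y = a * exc c x y := by
  unfold exc
  simp only [mul_assoc, Finset.mul_sum]

theorem exc_zero (x y : Fin k → Fin n → Bool) : exc (fun _ _ _ => 0) x y = 0 := by
  simp [exc]

theorem exc_sum {ι : Type} (s : Finset ι) (c : ι → Fin k → Fin k → Fin n → ZMod 2)
    (x y : Fin k → Fin n → Bool) :
    exc (fun i j u => ∑ l ∈ s, c l i j u) x y = ∑ l ∈ s, exc (c l) x y := by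
  classical
  induction s using Finset.induction_on with
  | empty => simp [exc_zero]
  | insert a s ha ih =>
    simp only [Finset.sum_insert ha]
    rw [exc_add, ih]

theorem chi_submodule {d : ℕ} (S : Submodule (ZMod 2) (Fin d → ZMod 2)) (v : Fin d → ZMod 2)
    [DecidablePred (· ∈ S)] :
    ∑ L ∈ Finset.univ.filter (· ∈ S), chi (∑ l, L l * v l) =
      ((Finset.univ.filter (· ∈ S)).card : ℝ) * ind (∀ L ∈ S, ∑ l, L l * v l = 0) := by
  by_cases h : ∀ L ∈ S, ∑ l, L l * v l = 0
  · rw [ind_true h, mul_one, Finset.sum_congr rfl fun L hL => by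
      rw [h L (Finset.mem_filter.1 hL).2, chi_zero]]
    simp
  · rw [ind_false h, mul_zero]
    push Not at h
    obtain ⟨L0, hL0, h1⟩ := h
    have h2 : ∑ l, L0 l * v l = 1 := by
      rcases zmod2_cases (∑ l, L0 l * v l) with h | h
      · exact absurd h h1
      · exact h
    have h3 : ∑ L ∈ Finset.univ.filter (· ∈ S), -chi (∑ l, L l * v l) =
        ∑ L ∈ Finset.univ.filter (· ∈ S), chi (∑ l, L l * v l) := by
      refine Finset.sum_equiv (Equiv.addRight L0) ?_ ?_
      · intro L
        simp only [Finset.mem_filter, Finset.mem_univ, true_and, Equiv.coe_addRight]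
        exact (Submodule.add_mem_iff_left S hL0).symm
      · intro L _
        simp only [Equiv.coe_addRight, Pi.add_apply, add_mul, Finset.sum_add_distrib, h2]
        rw [chi_add, show chi 1 = -1 by simp [chi]]
        ring
    rw [Finset.sum_neg_distrib] at h3
    linarith

theorem ind_zero_eq {d : ℕ} (v : Fin d → ZMod 2) :
    (2 : ℝ) ^ d * ind (∀ l, v l = 0) = ∑ L : Fin d → ZMod 2, chi (∑ l, L l * v l) := by
  classical
  have h := chi_submodule (⊤ : Submodule (ZMod 2) (Fin d → ZMod 2)) v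
  have e1 : Finset.univ.filter (· ∈ (⊤ : Submodule (ZMod 2) (Fin d → ZMod 2))) =
      Finset.univ := by
    ext L
    simp
  rw [e1] at h
  rw [h]
  congr 1
  · rw [Finset.card_univ]
    simp [ZMod.card]
  · congr 1
    apply propext
    constructor
    · intro h L _
      exact Finset.sum_eq_zero fun l _ => by rw [h l, mul_zero]
    · intro h l
      have := h (Pi.single l 1) trivial
      simpa [Pi.single_apply] using this

section path

variable {d : ℕ} (c : Fin d → Fin k → Fin k → Fin n → ZMod 2)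
  (f g : Fin d → (Fin k → Fin n → Bool) → ZMod 2)

/-- the value of bit number `l` of the path, plus its value on the path -/
def bt (l : Fin d) (x y : Fin k → Fin n → Bool) : ZMod 2 := f l x + g l y + exc (c l) x y

/-- a linear combination of the coefficients -/
def cL (L : Fin d → ZMod 2) : Fin k → Fin k → Fin n → ZMod 2 :=
  fun i j u => ∑ l, L l * c l i j u

/-- a linear combination of the bits -/
def aL (L : Fin d → ZMod 2) (x y : Fin k → Fin n → Bool) : ZMod 2 :=
  ∑ l, L l * bt c f g l x y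

theorem aL_eq (L : Fin d → ZMod 2) (x y : Fin k → Fin n → Bool) :
    aL c f g L x y = ∑ l, L l * f l x + ∑ l, L l * g l y + exc (cL c L) x y := by
  unfold aL bt cL
  rw [exc_sum]
  simp only [exc_smul]
  rw [← Finset.sum_add_distrib, ← Finset.sum_add_distrib]
  refine Finset.sum_congr rfl fun l _ => ?_
  ring

/-- the two sets are disjoint (or `D` is false) -/
noncomputable def dj (D : Bool) (i0 j0 : Fin k) (x y : Fin k → Fin n → Bool) : ℝ :=
  ∏ u, if (D && (x i0 u && y j0 u)) = true then 0 else 1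

theorem dj_false (i0 j0 : Fin k) (x y : Fin k → Fin n → Bool) : dj false i0 j0 x y = 1 := by
  simp [dj]

theorem dj_true (i0 j0 : Fin k) (x y : Fin k → Fin n → Bool) :
    dj true i0 j0 x y = ind (conj (x i0) (y j0) = zero n) := by
  unfold dj
  simp only [Bool.true_and]
  by_cases h : conj (x i0) (y j0) = zero n
  · rw [ind_true h]
    apply Finset.prod_eq_one
    intro u _
    have := congrFun h u
    simp only [conj, zero] at this
    rw [if_neg (by rw [this]; simp)]
  · rw [ind_false h]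
    have : ∃ u, (x i0 u && y j0 u) = true := by
      by_contra hn
      apply h
      funext u
      simp only [conj, zero]
      by_contra hu
      exact hn ⟨u, by simpa using hu⟩
    obtain ⟨u, hu⟩ := this
    exact Finset.prod_eq_zero (Finset.mem_univ u) (by rw [if_pos hu])

theorem mask_bound {r ε : ℝ} (h0 : 0 ≤ r) (h1 : r ≤ 1 / 2) (hε : 0 ≤ ε) {r0 : ℕ}
    (hr0 : (1 - r) ^ r0 ≤ ε ^ 2) (D : Bool) (i0 j0 : Fin k) (L : Fin d → ZMod 2)
    (hL : r0 ≤ (msk (cL c L) i0 j0).card) :
    |E2 r i0 j0 (fun x y => chi (aL c f g L x y) * dj D i0 j0 x y)| ≤ ε := by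
  have h := mask (k := k) h0 h1 (cL c L) D i0 j0 (msk (cL c L) i0 j0)
    (fun u hu => (Finset.mem_filter.1 hu).2)
    (fun z => chi (∑ l, L l * f l (fam i0 z))) (fun z => chi (∑ l, L l * g l (fam j0 z)))
    (fun z => (chi_abs _).le) (fun z => (chi_abs _).le)
  have e1 : E2 r i0 j0 (fun x y => chi (aL c f g L x y) * dj D i0 j0 x y) =
      EX (wt k r) n fun z => EX (wt k r) n fun z' =>
        chi (∑ l, L l * f l (fam i0 z)) * chi (∑ l, L l * g l (fam j0 z')) *
        (chi (exc (cL c L) (fam i0 z) (fam j0 z')) *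
        ∏ u, if (D && ((z u).2 && (z' u).2)) = true then 0 else 1) := by
    unfold E2
    congr 1
    funext z
    congr 1
    funext z'
    beta_reduce
    rw [aL_eq, chi_add, chi_add]
    have : dj D i0 j0 (fam i0 z) (fam j0 z') =
        ∏ u, if (D && ((z u).2 && (z' u).2)) = true then 0 else 1 := by
      unfold dj
      refine Finset.prod_congr rfl fun u _ => ?_
      simp only [fam, att, if_true]
    rw [this]
    ring
  rw [e1]
  apply abs_le_of_sq_le_sq _ hε
  refine h.trans (le_trans ?_ hr0)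
  exact pow_le_pow_of_le_one (by linarith) (by linarith) hL

/-- elimination of the masked combinations -/
theorem split {r ε : ℝ} {i0 j0 : Fin k}
    (S : Submodule (ZMod 2) (Fin d → ZMod 2)) (Φ : (Fin k → Fin n → Bool) →
      (Fin k → Fin n → Bool) → ℝ) (hε : 0 ≤ ε)
    (h : ∀ L, L ∉ S → |E2 r i0 j0 (fun x y => chi (aL c f g L x y) * Φ x y)| ≤ ε) :
    ∃ θ : ℝ, 0 ≤ θ ∧ θ ≤ 1 ∧
      (open Classical in θ = ((Finset.univ.filter (· ∈ S)).card : ℝ) / 2 ^ d) ∧
      |E2 r i0 j0 (fun x y => ind (∀ l, bt c f g l x y = 0) * Φ x y) -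
        θ * E2 r i0 j0 (fun x y => ind (∀ L ∈ S, aL c f g L x y = 0) * Φ x y)| ≤ ε := by
  classical
  have h2 : (0 : ℝ) < 2 ^ d := by positivity
  have hcard : Fintype.card (Fin d → ZMod 2) = 2 ^ d := by simp [ZMod.card]
  have hle : ((Finset.univ.filter (· ∈ S)).card : ℝ) ≤ 2 ^ d := by
    have := Finset.card_filter_le (Finset.univ : Finset (Fin d → ZMod 2)) (· ∈ S)
    rw [Finset.card_univ, hcard] at this
    exact_mod_cast this
  refine ⟨((Finset.univ.filter (· ∈ S)).card : ℝ) / 2 ^ d, by positivity,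
    (div_le_one h2).2 hle, rfl, ?_⟩
  have e1 : (2 : ℝ) ^ d * E2 r i0 j0 (fun x y => ind (∀ l, bt c f g l x y = 0) * Φ x y) =
      ∑ L, E2 r i0 j0 (fun x y => chi (aL c f g L x y) * Φ x y) := by
    rw [← E2_mul, ← E2_sum]
    congr 1
    funext x y
    rw [← mul_assoc, ind_zero_eq, Finset.sum_mul]
    rfl
  have e2 : ((Finset.univ.filter (· ∈ S)).card : ℝ) *
      E2 r i0 j0 (fun x y => ind (∀ L ∈ S, aL c f g L x y = 0) * Φ x y) =
      ∑ L ∈ Finset.univ.filter (· ∈ S), E2 r i0 j0 (fun x y => chi (aL c f g L x y) * Φ x y) := by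
    rw [← E2_mul, ← E2_sum]
    congr 1
    funext x y
    rw [← mul_assoc]
    have := chi_submodule S (fun l => bt c f g l x y)
    unfold aL
    rw [← this, Finset.sum_mul]
  have e3 : (2 : ℝ) ^ d * (E2 r i0 j0 (fun x y => ind (∀ l, bt c f g l x y = 0) * Φ x y) -
        ((Finset.univ.filter (· ∈ S)).card : ℝ) / 2 ^ d *
          E2 r i0 j0 (fun x y => ind (∀ L ∈ S, aL c f g L x y = 0) * Φ x y)) =
      ∑ L ∈ Finset.univ.filter (fun L => ¬ L ∈ S),
        E2 r i0 j0 (fun x y => chi (aL c f g L x y) * Φ x y) := by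
    rw [mul_sub, e1, ← mul_assoc, mul_div_cancel₀ _ h2.ne', e2,
      ← Finset.sum_filter_add_sum_filter_not Finset.univ (· ∈ S)]
    ring
  have e4 : |(2 : ℝ) ^ d * (E2 r i0 j0 (fun x y => ind (∀ l, bt c f g l x y = 0) * Φ x y) -
        ((Finset.univ.filter (· ∈ S)).card : ℝ) / 2 ^ d *
          E2 r i0 j0 (fun x y => ind (∀ L ∈ S, aL c f g L x y = 0) * Φ x y))| ≤ 2 ^ d * ε := by
    rw [e3]
    refine (Finset.abs_sum_le_sum_abs _ _).trans ?_
    refine (Finset.sum_le_sum (g := fun _ => ε) fun L hL => h L (Finset.mem_filter.1 hL).2).trans ?_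
    rw [Finset.sum_const, nsmul_eq_mul]
    apply mul_le_mul_of_nonneg_right _ hε
    have := Finset.card_filter_le (Finset.univ : Finset (Fin d → ZMod 2)) (fun L => ¬ L ∈ S)
    rw [Finset.card_univ, hcard] at this
    exact_mod_cast this
  rw [abs_mul, abs_of_pos h2] at e4
  exact le_of_mul_le_mul_left e4 h2

theorem z2c (p q r s : ZMod 2) : p + q = (p + s) + (r + q) + (r + s) := by
  revert p q r s
  decide

theorem z2d (c a b : ZMod 2) : c * (a * b) = c * (a * b) + c * (a * b) + c * (a * b) := by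
  revert c a b
  decide

theorem z2e (c a b b' : ZMod 2) : c * (a * b) = c * (a * b') + c * (a * b) + c * (a * b') := by
  revert c a b b'
  decide

theorem z2f (c a a' b : ZMod 2) : c * (a * b) = c * (a * b) + c * (a' * b) + c * (a' * b) := by
  revert c a a' b
  decide

/-- the second mixed difference -/
theorem exc_mixed {i0 j0 : Fin k} (c : Fin k → Fin k → Fin n → ZMod 2) (M : Fin n → Bool)
    (hc : ∀ u, M u ≠ true → c i0 j0 u = 0) (v w : Fin n → Fin k → Bool) (x x0 y y0 : Fin n → Bool)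
    (hx : ∀ i, M i = true → x i = x0 i) (hy : ∀ i, M i = true → y i = y0 i) :
    exc c (fam i0 fun u => (v u, x u)) (fam j0 fun u => (w u, y u)) =
      exc c (fam i0 fun u => (v u, x u)) (fam j0 fun u => (w u, y0 u)) +
      exc c (fam i0 fun u => (v u, x0 u)) (fam j0 fun u => (w u, y u)) +
      exc c (fam i0 fun u => (v u, x0 u)) (fam j0 fun u => (w u, y0 u)) := by
  unfold exc
  rw [← Finset.sum_add_distrib, ← Finset.sum_add_distrib]
  refine Finset.sum_congr rfl fun u _ => ?_
  rw [← Finset.sum_add_distrib, ← Finset.sum_add_distrib]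
  refine Finset.sum_congr rfl fun i _ => ?_
  rw [← Finset.sum_add_distrib, ← Finset.sum_add_distrib]
  refine Finset.sum_congr rfl fun j _ => ?_
  simp only [b2_and, fam, att]
  by_cases hi : i = i0
  · by_cases hj : j = j0
    · simp only [if_pos hi, if_pos hj]
      by_cases hM : M u = true
      · rw [hx u hM, hy u hM]
        exact z2d _ _ _
      · subst hi
        subst hj
        rw [hc u hM]
        ring
    · simp only [if_pos hi, if_neg hj]
      exact z2f _ _ _ _
  · simp only [if_neg hi]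
    exact z2e _ _ _ _

/-- **The corruption bound for a path.** -/
theorem path {m : ℕ} (hm : 10 ≤ m) (i0 j0 : Fin k) {r0 σ v : ℕ} (Pu : Finset (Fin n))
    (hPu : Pu.card ≤ σ) (hgood : ∀ L : Fin d → ZMod 2, pur (cL c L) i0 j0 ⊆ Pu)
    (hM : d * r0 + σ + v ≤ n) {α β ε : ℝ} (hα : 0 ≤ α) (hβ : 0 ≤ β) (hε : 0 ≤ ε)
    (hr0 : (1 - 1 / (m : ℝ)) ^ r0 ≤ ε ^ 2)
    (hP : ∀ P : ℝ, 0 ≤ P → P ^ (1 / (1 + 1 / (m : ℝ))) ≤ α * P + β) :
    E2 (1 / (m : ℝ)) i0 j0 (fun x y => ind (∀ l, bt c f g l x y = 0) *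
        ind (conj (x i0) (y j0) = zero n)) ≤
      (1 - 1 / (22 * (m : ℝ) ^ 2)) ^ v *
        (α * (E2 (1 / (m : ℝ)) i0 j0 (fun x y => ind (∀ l, bt c f g l x y = 0)) + ε) +
          β * 2 ^ d) + ε := by
  classical
  have hm' : (10 : ℝ) ≤ m := by exact_mod_cast hm
  have hm0 : (0 : ℝ) < m := by linarith
  have hinv : 1 / (m : ℝ) ≤ 1 / 10 := by
    apply one_div_le_one_div_of_le <;> linarith
  have hinv0 : 0 ≤ 1 / (m : ℝ) := by positivity
  have hinv2 : 1 / (m : ℝ) ≤ 1 / 2 := by linarith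
  have hg0 : 0 ≤ 1 - 1 / (22 * (m : ℝ) ^ 2) := by
    have : 1 / (22 * (m : ℝ) ^ 2) ≤ 1 := by
      rw [div_le_one (by positivity)]
      nlinarith
    linarith
  have hγ : 0 ≤ (1 - 1 / (22 * (m : ℝ) ^ 2)) ^ v := pow_nonneg hg0 _
  let U : Set (Fin d → ZMod 2) := {L | (msk (cL c L) i0 j0).card < r0}
  let S : Submodule (ZMod 2) (Fin d → ZMod 2) := Submodule.span (ZMod 2) U
  have hS : ∀ L, L ∉ S → r0 ≤ (msk (cL c L) i0 j0).card := by
    intro L hL
    by_contra hn
    exact hL (Submodule.subset_span (by simpa [U] using hn))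
  obtain ⟨θ, hθ0, hθ1, hθ, h1⟩ := split c f g (r := 1 / (m : ℝ)) (i0 := i0) (j0 := j0) S
    (dj true i0 j0) hε (fun L hL => mask_bound c f g hinv0 hinv2 hε hr0 true i0 j0 L (hS L hL))
  obtain ⟨θ', -, -, hθ', h2⟩ := split c f g (r := 1 / (m : ℝ)) (i0 := i0) (j0 := j0) S
    (dj false i0 j0) hε (fun L hL => mask_bound c f g hinv0 hinv2 hε hr0 false i0 j0 L (hS L hL))
  rw [← hθ'.trans hθ.symm] at h1 hθ0 hθ1
  simp only [dj_false, mul_one] at h2
  simp only [dj_true] at h1
  -- generators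
  obtain ⟨b, hbU, hbspan, hbli⟩ := exists_linearIndependent (ZMod 2) U
  haveI : Fintype b := Fintype.ofFinite b
  have hbcard : Fintype.card b ≤ d := by
    have := hbli.fintype_card_le_finrank
    simpa using this
  let e := Fintype.equivFin b
  let a' : (Fin k → Fin n → Bool) → (Fin k → Fin n → Bool) → Fin (Fintype.card b) → ZMod 2 :=
    fun x y l => aL c f g (e.symm l).1 x y
  have hev : ∀ x y, (∀ L ∈ S, aL c f g L x y = 0) ↔ a' x y = 0 := by
    intro x y
    constructor
    · intro h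
      funext l
      exact h _ (Submodule.subset_span (hbU (e.symm l).2))
    · intro h L hL
      have hL' : L ∈ Submodule.span (ZMod 2) b := by
        rw [hbspan]
        exact hL
      induction hL' using Submodule.span_induction with
      | mem L' hL' =>
        have := congrFun h (e ⟨L', hL'⟩)
        simpa [a'] using this
      | zero => simp [aL]
      | add L1 L2 hL1 hL2 ih1 ih2 =>
        have i1 := ih1 (by rw [hbspan] at hL1; exact hL1)
        have i2 := ih2 (by rw [hbspan] at hL2; exact hL2)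
        unfold aL at i1 i2 ⊢
        simp only [Pi.add_apply, add_mul, Finset.sum_add_distrib, i1, i2, add_zero]
      | smul z L1 hL1 ih1 =>
        have i1 := ih1 (by rw [hbspan] at hL1; exact hL1)
        unfold aL at i1 ⊢
        simp only [Pi.smul_apply, smul_eq_mul, mul_assoc, ← Finset.mul_sum, i1, mul_zero]
  -- the exceptional elements
  let Mf : Finset (Fin n) := (Finset.univ.biUnion fun l : Fin (Fintype.card b) =>
    msk (cL c (e.symm l).1) i0 j0) ∪ Pu
  let M : Fin n → Bool := fun u => decide (u ∈ Mf)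
  have hMf : Mf.card ≤ d * r0 + σ := by
    refine (Finset.card_union_le _ _).trans (Nat.add_le_add ?_ hPu)
    refine Finset.card_biUnion_le.trans ?_
    calc ∑ l : Fin (Fintype.card b), (msk (cL c (e.symm l).1) i0 j0).card
        ≤ ∑ _l : Fin (Fintype.card b), r0 := by
          refine Finset.sum_le_sum fun l _ => ?_
          have h3 : (msk (cL c (e.symm l).1) i0 j0).card < r0 := hbU (e.symm l).2
          exact h3.le
      _ = Fintype.card b * r0 := by simp
      _ ≤ _ := Nat.mul_le_mul_right _ hbcard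
  have hMc : ∀ (l : Fin (Fintype.card b)) (u : Fin n), M u ≠ true →
      cL c (e.symm l).1 i0 j0 u = 0 := by
    intro l u hu
    by_contra hn
    apply hu
    simp only [M, decide_eq_true_eq, Mf]
    rw [Finset.mem_union]
    by_cases h6 : ∃ i j, ¬ (i = i0 ∧ j = j0) ∧ cL c (e.symm l).1 i j u ≠ 0
    · exact Or.inl (Finset.mem_biUnion.2 ⟨l, Finset.mem_univ _,
        Finset.mem_filter.2 ⟨Finset.mem_univ _, h6⟩⟩)
    · refine Or.inr (hgood (e.symm l).1 (Finset.mem_filter.2 ⟨Finset.mem_univ _, hn, ?_⟩))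
      intro i j hij
      by_contra h7
      exact h6 ⟨i, j, hij, h7⟩
  have hv : v ≤ (Finset.univ.filter fun i => M i ≠ true).card := by
    have h3 : (Finset.univ.filter fun i => M i ≠ true) = Mfᶜ := by
      ext u
      simp [M]
    rw [h3, Finset.card_compl, Fintype.card_fin]
    omega
  -- corruption
  have h3 : E2 (1 / (m : ℝ)) i0 j0 (fun x y => ind (∀ L ∈ S, aL c f g L x y = 0) *
      ind (conj (x i0) (y j0) = zero n)) ≤ (1 - 1 / (22 * (m : ℝ) ^ 2)) ^ v *
      (α * E2 (1 / (m : ℝ)) i0 j0 (fun x y => ind (∀ L ∈ S, aL c f g L x y = 0)) +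
        β * 2 ^ d) := by
    have hw0 : ∀ v : Fin k → Bool, 0 ≤ ∏ l : Fin k, (fun _ : Bool => (1 / 2 : ℝ)) (v l) :=
      fun v => Finset.prod_nonneg fun _ _ => by norm_num
    rw [E2_split, E2_split]
    have h4 : ∀ vv ww : Fin n → Fin k → Bool,
        ex2 (1 / (m : ℝ)) n (fun x y => ind (∀ L ∈ S, aL c f g L
          (fam i0 fun u => (vv u, x u)) (fam j0 fun u => (ww u, y u)) = 0) *
          ind (conj ((fam i0 fun u => (vv u, x u)) i0) ((fam j0 fun u => (ww u, y u)) j0) =
            zero n)) ≤ (1 - 1 / (22 * (m : ℝ) ^ 2)) ^ v *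
        (α * ex2 (1 / (m : ℝ)) n (fun x y => ind (∀ L ∈ S, aL c f g L
          (fam i0 fun u => (vv u, x u)) (fam j0 fun u => (ww u, y u)) = 0)) + β * 2 ^ d) := by
      intro vv ww
      have h5 := corrupt hm (d := Fintype.card b) (v := v)
        (fun x y => a' (fam i0 fun u => (vv u, x u)) (fam j0 fun u => (ww u, y u))) M
        (by
          intro x x0 y y0 hx hy
          funext l
          simp only [a', Pi.add_apply]
          rw [aL_eq, aL_eq, aL_eq, aL_eq,
            exc_mixed (cL c (e.symm l).1) M (hMc l) vv ww x x0 y y0 hx hy]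
          rw [z2c (∑ l', (e.symm l).1 l' * f l' (fam i0 fun u => (vv u, x u)))
            (∑ l', (e.symm l).1 l' * g l' (fam j0 fun u => (ww u, y u)))
            (∑ l', (e.symm l).1 l' * f l' (fam i0 fun u => (vv u, x0 u)))
            (∑ l', (e.symm l).1 l' * g l' (fam j0 fun u => (ww u, y0 u)))]
          ring) hv hβ hα hP
      have e5 : ∀ x y : Fin n → Bool, ind (∀ L ∈ S, aL c f g L
          (fam i0 fun u => (vv u, x u)) (fam j0 fun u => (ww u, y u)) = 0) =
          ind (a' (fam i0 fun u => (vv u, x u)) (fam j0 fun u => (ww u, y u)) = 0) := by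
        intro x y
        congr 1
        exact propext (hev _ _)
      simp only [e5, ind_and]
      have e6 : ∀ x : Fin n → Bool, (fam i0 fun u => (vv u, x u)) i0 = x := by
        intro x
        funext u
        simp [fam, att]
      have e7 : ∀ x : Fin n → Bool, (fam j0 fun u => (ww u, x u)) j0 = x := by
        intro x
        funext u
        simp [fam, att]
      simp only [e6, e7]
      refine h5.trans ?_
      apply mul_le_mul_of_nonneg_left _ hγ
      have h6 : β * 2 ^ Fintype.card b ≤ β * 2 ^ d :=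
        mul_le_mul_of_nonneg_left (pow_le_pow_right₀ (by norm_num) hbcard) hβ
      linarith
    refine (EX_mono hw0 n fun vv => EX_mono hw0 n fun ww => h4 vv ww).trans (le_of_eq ?_)
    simp only [EX_mul, EX_add, EX_const sum_half]
  have h4 := (abs_le.1 h1).2
  have h5 := (abs_le.1 h2).1
  have h6 : θ' * E2 (1 / (m : ℝ)) i0 j0 (fun x y => ind (∀ L ∈ S, aL c f g L x y = 0) *
      ind (conj (x i0) (y j0) = zero n)) ≤ (1 - 1 / (22 * (m : ℝ) ^ 2)) ^ v *
      (α * (θ' * E2 (1 / (m : ℝ)) i0 j0 (fun x y => ind (∀ L ∈ S, aL c f g L x y = 0))) +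
        β * 2 ^ d) := by
    calc _ ≤ θ' * ((1 - 1 / (22 * (m : ℝ) ^ 2)) ^ v *
      (α * E2 (1 / (m : ℝ)) i0 j0 (fun x y => ind (∀ L ∈ S, aL c f g L x y = 0)) +
        β * 2 ^ d)) := mul_le_mul_of_nonneg_left h3 hθ0
      _ = (1 - 1 / (22 * (m : ℝ) ^ 2)) ^ v *
      (α * (θ' * E2 (1 / (m : ℝ)) i0 j0 (fun x y => ind (∀ L ∈ S, aL c f g L x y = 0))) +
        θ' * (β * 2 ^ d)) := by ring
      _ ≤ _ := by
        apply mul_le_mul_of_nonneg_left _ hγ
        have : θ' * (β * 2 ^ d) ≤ 1 * (β * 2 ^ d) :=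
          mul_le_mul_of_nonneg_right hθ1 (by positivity)
        linarith
  have h7 : (1 - 1 / (22 * (m : ℝ) ^ 2)) ^ v *
      (α * (θ' * E2 (1 / (m : ℝ)) i0 j0 (fun x y => ind (∀ L ∈ S, aL c f g L x y = 0))) +
        β * 2 ^ d) ≤ (1 - 1 / (22 * (m : ℝ) ^ 2)) ^ v *
        (α * (E2 (1 / (m : ℝ)) i0 j0 (fun x y => ind (∀ l, bt c f g l x y = 0)) + ε) +
          β * 2 ^ d) := by
    apply mul_le_mul_of_nonneg_left _ hγ
    have := mul_le_mul_of_nonneg_left (a := α) (by linarith : θ' * E2 (1 / (m : ℝ)) i0 j0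
      (fun x y => ind (∀ L ∈ S, aL c f g L x y = 0)) ≤
      E2 (1 / (m : ℝ)) i0 j0 (fun x y => ind (∀ l, bt c f g l x y = 0)) + ε) hα
    linarith
  linarith

end path

end Pool.Agent.N631.LX
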