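import Pool.Agent.N631.LX.Path
import Pool.Agent.N631.LX.Defs

/-!
# The error of a linear data structure on a good pair (helper631)
-/

set_option autoImplicit false

namespace Pool.Agent.N631.LX

open Pool.Agent.W959 Pool.Agent.W959.Ent Pool.Agent.TH457.EntD

variable {k n : ℕ}

section tree

variable {R : ℕ} (c : Fin R → Fin k → Fin k → Fin n → ZMod 2)
  (f g : Fin R → (Fin k → Fin n → Bool) → ZMod 2)

/-- the bits of the memory lead to the end of the path -/
def onp (π : List (Fin R × ZMod 2)) (x y : Fin k → Fin n → Bool) : Prop :=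
  ∀ q ∈ π, bt c f g q.1 x y = q.2

theorem z2g (a b c d : ZMod 2) : a + d + b + c = 0 ↔ a + b + c = d := by
  revert a b c d
  decide

theorem path_list {m : ℕ} (hm : 10 ≤ m) (i0 j0 : Fin k) {r0 σ v t : ℕ}
    (W : Submodule (ZMod 2) (Fin k → Fin k → Fin n → ZMod 2)) (hW : ∀ l, c l ∈ W)
    (Pu : Finset (Fin n)) (hPu : Pu.card ≤ σ) (hgood : ∀ w ∈ W, pur w i0 j0 ⊆ Pu)
    (hM : t * r0 + σ + v ≤ n) {α β ε : ℝ} (hα : 0 ≤ α) (hβ : 0 ≤ β) (hε : 0 ≤ ε)
    (hr0 : (1 - 1 / (m : ℝ)) ^ r0 ≤ ε ^ 2)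
    (hP : ∀ P : ℝ, 0 ≤ P → P ^ (1 / (1 + 1 / (m : ℝ))) ≤ α * P + β)
    (π : List (Fin R × ZMod 2)) (hπ : π.length ≤ t) :
    E2 (1 / (m : ℝ)) i0 j0 (fun x y => ind (onp c f g π x y) *
        ind (conj (x i0) (y j0) = zero n)) ≤
      (1 - 1 / (22 * (m : ℝ) ^ 2)) ^ v *
        (α * (E2 (1 / (m : ℝ)) i0 j0 (fun x y => ind (onp c f g π x y)) + ε) +
          β * 2 ^ t) + ε := by
  have hm' : (10 : ℝ) ≤ m := by exact_mod_cast hm
  have hg0 : 0 ≤ 1 - 1 / (22 * (m : ℝ) ^ 2) := by
    have : 1 / (22 * (m : ℝ) ^ 2) ≤ 1 := by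
      rw [div_le_one (by positivity)]
      nlinarith
    linarith
  have hγ : 0 ≤ (1 - 1 / (22 * (m : ℝ) ^ 2)) ^ v := pow_nonneg hg0 _
  let c' : Fin π.length → Fin k → Fin k → Fin n → ZMod 2 := fun l => c (π.get l).1
  let f' : Fin π.length → (Fin k → Fin n → Bool) → ZMod 2 :=
    fun l x => f (π.get l).1 x + (π.get l).2
  let g' : Fin π.length → (Fin k → Fin n → Bool) → ZMod 2 := fun l => g (π.get l).1
  have h1 := path c' f' g' hm i0 j0 (r0 := r0) (σ := σ) (v := v) Pu hPu (by
      intro L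
      apply hgood
      have : cL c' L = ∑ l, L l • c' l := by
        funext i j u
        simp [cL, Finset.sum_apply]
      rw [this]
      exact Submodule.sum_mem _ fun l _ => Submodule.smul_mem _ _ (hW _))
    (le_trans (Nat.add_le_add_right (Nat.add_le_add_right (Nat.mul_le_mul_right _ hπ) _) _) hM)
    hα hβ hε hr0 hP
  have h2 : ∀ x y, (∀ l, bt c' f' g' l x y = 0) ↔ onp c f g π x y := by
    intro x y
    unfold onp
    rw [List.forall_mem_iff_get]
    refine forall_congr' fun l => ?_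
    simp only [bt, c', f', g']
    exact z2g _ _ _ _
  have h3 : ∀ x y, ind (∀ l, bt c' f' g' l x y = 0) = ind (onp c f g π x y) := by
    intro x y
    congr 1
    exact propext (h2 x y)
  simp only [h3] at h1
  refine h1.trans ?_
  have h4 : β * 2 ^ π.length ≤ β * 2 ^ t :=
    mul_le_mul_of_nonneg_left (pow_le_pow_right₀ (by norm_num) hπ) hβ
  have := mul_le_mul_of_nonneg_left (add_le_add_right h4 (α * (E2 (1 / (m : ℝ)) i0 j0
    (fun x y => ind (onp c f g π x y)) + ε))) hγ
  linarith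

theorem tree_bound {m : ℕ} (hm : 10 ≤ m) (i0 j0 : Fin k) {r0 σ v t : ℕ}
    (W : Submodule (ZMod 2) (Fin k → Fin k → Fin n → ZMod 2)) (hW : ∀ l, c l ∈ W)
    (Pu : Finset (Fin n)) (hPu : Pu.card ≤ σ) (hgood : ∀ w ∈ W, pur w i0 j0 ⊆ Pu)
    (hM : t * r0 + σ + v ≤ n) {α β ε : ℝ} (hα : 0 ≤ α) (hβ : 0 ≤ β) (hε : 0 ≤ ε)
    (hr0 : (1 - 1 / (m : ℝ)) ^ r0 ≤ ε ^ 2)
    (hP : ∀ P : ℝ, 0 ≤ P → P ^ (1 / (1 + 1 / (m : ℝ))) ≤ α * P + β)
    (T : Tree R) (π : List (Fin R × ZMod 2)) (hπ : π.length + T.depth ≤ t) :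
    E2 (1 / (m : ℝ)) i0 j0 (fun x y => ind (onp c f g π x y ∧
        T.run (fun l => decide (bt c f g l x y = 1)) = false) *
        ind (conj (x i0) (y j0) = zero n)) ≤
      (1 - 1 / (22 * (m : ℝ) ^ 2)) ^ v * α *
        E2 (1 / (m : ℝ)) i0 j0 (fun x y => ind (onp c f g π x y ∧
          T.run (fun l => decide (bt c f g l x y = 1)) = false)) +
      2 ^ T.depth * ((1 - 1 / (22 * (m : ℝ) ^ 2)) ^ v * (α * ε + β * 2 ^ t) + ε) := by
  have hm' : (10 : ℝ) ≤ m := by exact_mod_cast hm
  have hm0 : (0 : ℝ) < m := by linarith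
  have hinv : 1 / (m : ℝ) ≤ 1 / 10 := by
    apply one_div_le_one_div_of_le <;> linarith
  have hinv0 : 0 ≤ 1 / (m : ℝ) := by positivity
  have hinv2 : 1 / (m : ℝ) ≤ 1 / 2 := by linarith
  have hg0 : 0 ≤ 1 - 1 / (22 * (m : ℝ) ^ 2) := by
    have : 1 / (22 * (m : ℝ) ^ 2) ≤ 1 := by
      rw [div_le_one (by positivity)]
      nlinarith
    linarith
  have hγ : 0 ≤ (1 - 1 / (22 * (m : ℝ) ^ 2)) ^ v := pow_nonneg hg0 _
  obtain ⟨κ, hκ⟩ : ∃ κ, κ = (1 - 1 / (22 * (m : ℝ) ^ 2)) ^ v := ⟨_, rfl⟩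
  have hη : 0 ≤ (1 - 1 / (22 * (m : ℝ) ^ 2)) ^ v * (α * ε + β * 2 ^ t) + ε := by positivity
  induction T generalizing π with
  | answer a =>
    simp only [Tree.depth, pow_zero, one_mul, Tree.run]
    cases a with
    | false =>
      simp only [and_true]
      have := path_list c f g hm i0 j0 W hW Pu hPu hgood hM hα hβ hε hr0 hP π
        (by simp only [Tree.depth] at hπ; omega)
      refine this.trans (le_of_eq ?_)
      ring
    | true =>
      have h1 : ∀ x y, ind (onp c f g π x y ∧ True ∧ False) = 0 := fun x y =>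
        ind_false (fun h => h.2.2)
      have h2 : ∀ x y : Fin k → Fin n → Bool, ind (onp c f g π x y ∧ true = false) = 0 :=
        fun x y => ind_false (fun h => by simp at h)
      simp only [h2, zero_mul, E2_const, mul_zero, zero_add]
      exact hη
  | probe l t0 t1 ih0 ih1 =>
    simp only [Tree.depth] at hπ
    have i0' := ih0 ((l, 0) :: π) (by simp only [List.length_cons]; omega)
    have i1' := ih1 ((l, 1) :: π) (by simp only [List.length_cons]; omega)
    have h1 : ∀ x y, ind (onp c f g π x y ∧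
        (Tree.probe l t0 t1).run (fun l => decide (bt c f g l x y = 1)) = false) =
        ind (onp c f g ((l, 0) :: π) x y ∧
          t0.run (fun l => decide (bt c f g l x y = 1)) = false) +
        ind (onp c f g ((l, 1) :: π) x y ∧
          t1.run (fun l => decide (bt c f g l x y = 1)) = false) := by
      intro x y
      have e1 : ∀ a, onp c f g ((l, a) :: π) x y ↔ bt c f g l x y = a ∧ onp c f g π x y := by
        intro a
        simp [onp]
      rcases zmod2_cases (bt c f g l x y) with h | h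
      · have e2 : ¬ (onp c f g ((l, 1) :: π) x y ∧
            t1.run (fun l => decide (bt c f g l x y = 1)) = false) := by
          rintro ⟨h2, -⟩
          rw [e1, h] at h2
          exact absurd h2.1 (by decide)
        rw [ind_false e2, add_zero]
        congr 1
        apply propext
        rw [e1]
        simp only [Tree.run, h]
        simp
      · have e2 : ¬ (onp c f g ((l, 0) :: π) x y ∧
            t0.run (fun l => decide (bt c f g l x y = 1)) = false) := by
          rintro ⟨h2, -⟩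
          rw [e1, h] at h2
          exact absurd h2.1 (by decide)
        rw [ind_false e2, zero_add]
        congr 1
        apply propext
        rw [e1]
        simp only [Tree.run, h]
        simp
    simp only [h1, add_mul, E2_add]
    have h2 : (2 : ℝ) ^ t0.depth + 2 ^ t1.depth ≤ 2 ^ (Tree.probe l t0 t1).depth := by
      have e1 : (2 : ℝ) ^ t0.depth ≤ 2 ^ max t0.depth t1.depth :=
        pow_le_pow_right₀ (by norm_num) (le_max_left _ _)
      have e2 : (2 : ℝ) ^ t1.depth ≤ 2 ^ max t0.depth t1.depth :=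
        pow_le_pow_right₀ (by norm_num) (le_max_right _ _)
      simp only [Tree.depth, pow_succ]
      linarith
    have h3 := mul_le_mul_of_nonneg_right h2 hη
    rw [add_mul] at h3
    rw [mul_add]
    linarith

end tree

end Pool.Agent.N631.LX
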